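import Pool.Agent.H90.SK.Pol
import Pool.Agent.H90.SK.Tf

/-!
# Schinzel's Goldbach-type question for every `N`, in residue classes to large moduli

(1) For all systems of integer polynomials `f_1, …, f_r` of total degree at most `D` without a fixed prime
divisor, UNIFORMLY in the coefficients, for every set `S` of integers `n ≤ x` for which all `f_i(n)` are
primes: `S` is distributed among the residue classes to moduli `q`, with `q` as large as a small multiple of
the expected order `E = x ∏_{p ≤ x} (1 - ω(p) / p)` of the number of these `n`, as its distribution modulo a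
bounded divisor `gcd(q, P)` of `q` predicts, in mean square.

(2) So for EVERY `N` this holds for the solutions `n` of Schinzel's problem, `F_i(n)` and `N - G(n)` all
primes (for instance for the Goldbach partitions `N = n + (N - n)`), and the asymptotic formula in all
fixed residue classes as `N → ∞` is equivalent to the mean square law for moduli up to `δ E`, and to the
mean square law at one arbitrarily slowly growing scale.

Method: the large sieve for the integers `n ≤ x` sifted by a bounded number of residue classes modulo the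
primes, at arbitrary well-spaced points and with arbitrary bounded coefficients.

No unproved hypothesis is made.
-/

set_option autoImplicit false

namespace Pool.Agent.Results.MP_0bf1d2_nt.EveryNLargeModuli

open Filter Topology Polynomial

section Definitions

/-- The product of the polynomials has no fixed prime divisor. -/
def NoFixedPrime {r : ℕ} (f : Fin r → ℤ[X]) : Prop :=
  ∀ p : ℕ, p.Prime → ∃ m : ℕ, ∀ i, ¬ (p : ℤ) ∣ (f i).eval (m : ℤ)

/-- The integers `n` for which all `|f_i(n)|` are primes. -/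
def primeArguments {r : ℕ} (f : Fin r → ℤ[X]) : Set ℕ :=
  {n : ℕ | ∀ i, ((f i).eval (n : ℤ)).natAbs.Prime}

/-- The number of residues `n` modulo `p` with `f_1(n) ⋯ f_r(n) ≡ 0`. -/
noncomputable def omega {r : ℕ} (f : Fin r → ℤ[X]) (p : ℕ) : ℕ :=
  Set.ncard {n : ℕ | n < p ∧ ∃ i, (p : ℤ) ∣ (f i).eval (n : ℤ)}

/-- `x ∏_{p ≤ x} (1 - ω(p) / p)`. -/
noncomputable def expected {r : ℕ} (f : Fin r → ℤ[X]) (x : ℕ) : ℝ :=
  x * ∏ p ∈ (Finset.Icc 1 x).filter Nat.Prime, (1 - (omega f p : ℝ) / p)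

/-- The number of the `n ∈ S` with `1 ≤ n ≤ x` and `n ≡ a` modulo `q`. -/
noncomputable def count (S : Set ℕ) (x q a : ℕ) : ℝ :=
  (Set.ncard {n : ℕ | n ∈ S ∧ 1 ≤ n ∧ n ≤ x ∧ n ≡ a [MOD q]} : ℝ)

/-- The sum over all classes to all moduli `Q ≤ q < 2 Q` of the squares of the differences of the
number of the elements of `S` in the class modulo `q` and the proportion `g / q` of the number of those in
the class modulo `g = gcd(q, P)`. -/
noncomputable def relative (S : Set ℕ) (x P Q : ℕ) : ℝ :=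
  ∑ q ∈ Finset.Ico Q (2 * Q), ∑ a ∈ Finset.range q,
    (count S x q a - (Nat.gcd q P / q : ℝ) * count S x (Nat.gcd q P) a) ^ 2

/-- The number `X(N)` of the positive integers `n` with `N - G(n) > 0`. -/
noncomputable def X₀ (G : ℤ[X]) (N : ℕ) : ℕ := Set.ncard {n : ℕ | 1 ≤ n ∧ 0 < (N : ℤ) - G.eval (n : ℤ)}

/-- The system `F_1, …, F_g, N - G`. -/
noncomputable def system {g : ℕ} (F : Fin g → ℤ[X]) (G : ℤ[X]) (N : ℕ) : Fin (g + 1) → ℤ[X] :=
  Fin.snoc F (C (N : ℤ) - G)

/-- The solutions for `N`: the `n ≥ 1` for which `F_1(n), …, F_g(n), N - G(n)` are positive primes. -/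
def solutions {g : ℕ} (F : Fin g → ℤ[X]) (G : ℤ[X]) (N : ℕ) : Set ℕ :=
  {n : ℕ | 1 ≤ n ∧ (∀ i, ∃ p : ℕ, p.Prime ∧ (F i).eval (n : ℤ) = p) ∧
    ∃ p : ℕ, p.Prime ∧ (N : ℤ) - G.eval (n : ℤ) = p}

/-- The expected order of the number of the solutions for `N`. -/
noncomputable def order {g : ℕ} (F : Fin g → ℤ[X]) (G : ℤ[X]) (N : ℕ) : ℝ := expected (system F G N) (X₀ G N)

/-- `N → ∞` through the `N` for which `F_1 ⋯ F_g (N - G)` has no fixed prime divisor. -/
def toInfinity {g : ℕ} (F : Fin g → ℤ[X]) (G : ℤ[X]) : Filter ℕ :=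
  atTop ⊓ 𝓟 {N : ℕ | NoFixedPrime (system F G N)}

/-- The numbers `c(q, a)`, `0 ≤ a < q`, are consistent: `c(q, a)` is the sum of `c(q', a')` over the
classes `a'` modulo the multiple `q'` of `q` in the class `a` modulo `q`. -/
def Consistent (c : ℕ → ℕ → ℝ) : Prop :=
  ∀ q q' a : ℕ, 1 ≤ q' → q ∣ q' → a < q →
    c q a = ∑ b ∈ (Finset.range q').filter (fun b => b ≡ a [MOD q]), c q' b

/-- The sum over all classes to all moduli `Q ≤ q < 2 Q` of the squares of the differences of the number of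
the elements of `S_N` in the class and `(g / q) c_N(g, a)`, `g = gcd(q, P)`. -/
noncomputable def deviation (G : ℤ[X]) (S : ℕ → Set ℕ) (c : ℕ → ℕ → ℕ → ℝ) (N P Q : ℕ) : ℝ :=
  ∑ q ∈ Finset.Ico Q (2 * Q), ∑ a ∈ Finset.range q,
    (count (S N) (X₀ G N) q a - (Nat.gcd q P / q : ℝ) * c N (Nat.gcd q P) (a % Nat.gcd q P)) ^ 2

variable {g : ℕ} (F : Fin g → ℤ[X]) (G : ℤ[X]) (S : ℕ → Set ℕ) (c : ℕ → ℕ → ℕ → ℝ)

/-- (i) In every fixed residue class the number of the elements of `S_N` is `c_N(q, a) + o(order)`. -/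
def Fixed : Prop := ∀ q a : ℕ, 1 ≤ q → a < q →
  Tendsto (fun N => (count (S N) (X₀ G N) q a - c N q a) / order F G N) (toInfinity F G) (𝓝 0)

/-- (ii) The mean square law for all moduli up to `δ order`. -/
def Large : Prop :=
  ∀ ε : ℝ, 0 < ε → ∃ (P₀ : ℕ) (δ : ℝ), 1 ≤ P₀ ∧ 0 < δ ∧ ∀ P : ℕ, 1 ≤ P → P₀ ∣ P →
    ∀ᶠ N in toInfinity F G, ∀ Q : ℕ, 1 ≤ Q → (Q : ℝ) ≤ δ * order F G N →
      deviation G S c N P Q ≤ ε * order F G N ^ 2

/-- (iii) The mean square law for one scale `Q(N)`, which tends to infinity with `N`. -/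
def OneScale : Prop :=
  ∃ Q : ℕ → ℕ, Tendsto Q (toInfinity F G) atTop ∧ ∀ ε : ℝ, 0 < ε → ∃ P₀ : ℕ, 1 ≤ P₀ ∧
    ∀ P : ℕ, 1 ≤ P → P₀ ∣ P → ∀ᶠ N in toInfinity F G, deviation G S c N P (Q N) ≤ ε * order F G N ^ 2

end Definitions

/-! ### proofs -/

section Proofs

open Finset Pool.Agent.H90.SK Pool.Agent.Helper112

theorem omega_eq {r : ℕ} (f : Fin r → ℤ[X]) (p : ℕ) : omega f p = (omP f p).card := by
  classical
  unfold omega omP
  rw [← Set.ncard_coe_finset]
  congr 1
  ext n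
  simp only [coe_filter, mem_range, Set.mem_ofPred_eq]

theorem expected_eq {r : ℕ} (f : Fin r → ℤ[X]) (x : ℕ) : expected f x = x * VV (omP f) x := by
  unfold expected VV PR
  congr 1
  apply prod_congr rfl
  intro p _
  rw [omega_eq]

open Classical in
theorem count_eq (S : Set ℕ) (x q a : ℕ) :
    count S x q a = (((Icc 1 x).filter (fun n => n ∈ S ∧ n ≡ a [MOD q])).card : ℝ) := by
  unfold count
  rw [← Set.ncard_coe_finset]
  congr 2
  ext n
  simp only [coe_filter, mem_Icc, Set.mem_ofPred_eq]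
  tauto

open Classical in
/-- the indicator -/
noncomputable def ind (S : Set ℕ) (n : ℕ) : ℂ := if n ∈ S then 1 else 0

theorem cls_eq (S : Set ℕ) (x q a : ℕ) : cls x (ind S) q a = (count S x q a : ℂ) := by
  classical
  rw [count_eq]
  unfold cls ind
  rw [← sum_filter, sum_const, filter_filter, nsmul_eq_mul, mul_one]
  push_cast
  congr 2
  apply filter_congr
  intro n _
  tauto

theorem relative_eq (S : Set ℕ) (x P Q : ℕ) : relative S x P Q =
    ∑ q ∈ Ico Q (2 * Q), ∑ a ∈ range q, ‖DF x (ind S) q (Nat.gcd q P) a‖ ^ 2 := by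
  unfold relative
  apply sum_congr rfl
  intro q _
  apply sum_congr rfl
  intro a _
  unfold DF
  rw [cls_eq, cls_eq]
  have : ((count S x q a : ℝ) : ℂ) - ((Nat.gcd q P : ℂ) / q) * ((count S x (Nat.gcd q P) a : ℝ) : ℂ) =
      ((count S x q a - (Nat.gcd q P / q : ℝ) * count S x (Nat.gcd q P) a : ℝ) : ℂ) := by
    push_cast
    rfl
  rw [this, Complex.norm_real, Real.norm_eq_abs, sq_abs]

/-- part (1) -/
theorem rel (D : ℕ) (hD : 1 ≤ D) (ε : ℝ) (hε : 0 < ε) :
    ∃ (P₀ x₀ : ℕ) (δ : ℝ), 1 ≤ P₀ ∧ 2 ≤ x₀ ∧ 0 < δ ∧ ∀ (r : ℕ) (f : Fin r → ℤ[X]), (∀ i, 1 ≤ (f i).natDegree) →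
      ∑ i, (f i).natDegree ≤ D → NoFixedPrime f → ∀ S : Set ℕ, S ⊆ primeArguments f →
      ∀ x : ℕ, x₀ ≤ x → ∀ P : ℕ, 1 ≤ P → P₀ ∣ P → ∀ Q : ℕ, 1 ≤ Q → (Q : ℝ) ≤ δ * expected f x →
        relative S x P Q ≤ ε * expected f x ^ 2 := by
  obtain ⟨C, x₀, hC, hx₀, hmain⟩ := pol_rel D hD
  -- the choice of `K`
  set K : ℕ := ⌈(2 * C / ε) ^ 2⌉₊ + 1 with hK
  have hK1 : 1 ≤ K := by omega
  have hK0 : (0 : ℝ) < K := by exact_mod_cast hK1
  have hKs : 2 * C / ε ≤ √(K : ℝ) := by
    apply Real.le_sqrt_of_sq_le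
    rw [hK]
    push_cast
    linarith [Nat.le_ceil ((2 * C / ε) ^ 2)]
  have hsK : 0 < √(K : ℝ) := Real.sqrt_pos.2 hK0
  have hCK : C / √K ≤ ε / 2 := by
    rw [div_le_iff₀ hsK]
    have := mul_le_mul_of_nonneg_left hKs (show 0 ≤ ε / 2 by positivity)
    calc C = ε / 2 * (2 * C / ε) := by field_simp
      _ ≤ _ := this
  refine ⟨K.factorial, x₀, ε / (2 * C), Nat.factorial_pos K, hx₀, by positivity, ?_⟩
  intro r f hd hfD hfix S hS x hx P hP hPP Q hQ hQx
  have hadm := adm_omP f hfix hfD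
  have hX : 0 < expected f x := by
    rw [expected_eq]
    have h1 : (0 : ℝ) < x := by exact_mod_cast (by omega : 0 < x)
    exact mul_pos h1 (VV_pos hadm x)
  have h1 := hmain x hx r f hd hfD hfix (ind S) (by
    intro n hn i
    unfold ind at hn
    by_contra hcon
    apply hn
    rw [if_neg]
    intro hnS
    exact hcon (hS hnS i)) (by
    intro n
    unfold ind
    split_ifs <;> simp) K P hK1 (by
    intro d hd hdK
    exact (Nat.dvd_factorial (by omega) hdK).trans hPP) Q hQ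
  rw [← relative_eq, ← expected_eq] at h1
  refine h1.trans ?_
  have t1 : C * (expected f x ^ 2 / √K) ≤ ε / 2 * expected f x ^ 2 := by
    calc C * (expected f x ^ 2 / √K) = C / √K * expected f x ^ 2 := by ring
      _ ≤ _ := mul_le_mul_of_nonneg_right hCK (by positivity)
  have t2 : C * (Q * expected f x) ≤ ε / 2 * expected f x ^ 2 := by
    calc C * (Q * expected f x) ≤ C * (ε / (2 * C) * expected f x * expected f x) := by
          apply mul_le_mul_of_nonneg_left _ hC.le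
          exact mul_le_mul_of_nonneg_right hQx hX.le
      _ = _ := by field_simp
  linarith

theorem count_mod (S : Set ℕ) (x g a : ℕ) : count S x g a = count S x g (a % g) := by
  unfold count
  have : ∀ n : ℕ, n ≡ a [MOD g] ↔ n ≡ a % g [MOD g] := fun n =>
    ⟨fun h => h.trans (Nat.mod_modEq a g).symm, fun h => h.trans (Nat.mod_modEq a g)⟩
  simp only [this]

theorem count_split {q₀ q : ℕ} (h1 : q₀ ∣ q) (hq : 1 ≤ q) (S : Set ℕ) (x a₀ : ℕ) :
    count S x q₀ a₀ = ∑ a ∈ (range q).filter (fun a => a ≡ a₀ [MOD q₀]), count S x q a := by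
  classical
  simp only [count_eq]
  rw [← Nat.cast_sum]
  congr 1
  rw [← card_biUnion]
  · congr 1
    ext n
    simp only [mem_filter, mem_Icc, mem_biUnion, mem_range]
    constructor
    · rintro ⟨hn, hS, hmod⟩
      refine ⟨n % q, ⟨Nat.mod_lt _ (by omega), ?_⟩, hn, hS, (Nat.mod_modEq n q).symm⟩
      exact ((Nat.mod_modEq n q).of_dvd h1).trans hmod
    · rintro ⟨a, ⟨_, ha⟩, hn, hS, hmod⟩
      exact ⟨hn, hS, (hmod.of_dvd h1).trans ha⟩
  · intro a ha b hb hab
    rw [Function.onFun, disjoint_left]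
    intro n hn hn'
    rw [mem_filter] at hn hn'
    rw [mem_coe, mem_filter, mem_range] at ha hb
    apply hab
    have h5 : a ≡ b [MOD q] := hn.2.2.symm.trans hn'.2.2
    exact h5.eq_of_lt_of_lt ha.1 hb.1

/-- the values of `G` up to `N` -/
theorem G_facts (G : ℤ[X]) (hG : 1 ≤ G.natDegree) (hGl : 0 < G.leadingCoeff) :
    Tendsto (fun N => X₀ G N) atTop atTop ∧
    ∀ᶠ N : ℕ in atTop, ∀ n : ℕ, (1 ≤ n ∧ 0 < (N : ℤ) - G.eval (n : ℤ)) ↔ (1 ≤ n ∧ n ≤ X₀ G N) := by
  classical
  -- `G(n + 1) > G(n)` for large `n`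
  have hmono : ∃ n₁ : ℕ, ∀ n : ℕ, n₁ ≤ n → G.eval (n : ℤ) < G.eval ((n + 1 : ℕ) : ℤ) := by
    set D : ℤ[X] := G.comp (X + 1) - G with hD
    have hev : ∀ n : ℕ, D.eval (n : ℤ) = G.eval ((n + 1 : ℕ) : ℤ) - G.eval (n : ℤ) := by
      intro n
      rw [hD]
      simp
    obtain ⟨n₁, hn₁⟩ := eventually_pos_diff G hG hGl
    exact ⟨n₁, fun n hn => hn₁ n hn⟩
  obtain ⟨n₁, hn₁⟩ := hmono
  have hle : ∀ m n : ℕ, n₁ ≤ m → m ≤ n → G.eval (m : ℤ) ≤ G.eval (n : ℤ) := by
    intro m n hm hmn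
    induction n, hmn using Nat.le_induction with
    | base => exact le_rfl
    | succ n hmn ih => exact ih.trans (hn₁ n (hm.trans hmn)).le
  have hinf : ∀ n : ℕ, G.eval (n₁ : ℤ) + n ≤ G.eval ((n₁ + n : ℕ) : ℤ) := by
    intro n
    induction n with
    | zero => simp
    | succ n ih =>
      have h1 := hn₁ (n₁ + n) (by omega)
      have e : n₁ + (n + 1) = n₁ + n + 1 := by ring
      rw [e]
      push_cast at ih h1 ⊢
      linarith
  -- the initial segment
  set M : ℤ := ∑ n ∈ range (n₁ + 1), |G.eval (n : ℤ)| with hM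
  have hMle : ∀ n : ℕ, n ≤ n₁ → G.eval (n : ℤ) ≤ M := by
    intro n hn
    refine (le_abs_self _).trans ?_
    exact single_le_sum (f := fun n : ℕ => |G.eval (n : ℤ)|) (fun _ _ => abs_nonneg _) (mem_range.2 (by omega))
  have hseg : ∀ N : ℕ, M < N → ∀ n : ℕ, (1 ≤ n ∧ 0 < (N : ℤ) - G.eval (n : ℤ)) ↔ (1 ≤ n ∧ n ≤ X₀ G N) := by
    intro N hN
    have hdown : ∀ m n : ℕ, 1 ≤ m → m ≤ n → 0 < (N : ℤ) - G.eval (n : ℤ) → 0 < (N : ℤ) - G.eval (m : ℤ) := by
      intro m n _ hmn hn
      rcases le_or_gt m n₁ with h | h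
      · have := hMle m h
        linarith
      · have := hle m n h.le hmn
        linarith
    have hfin : {n : ℕ | 1 ≤ n ∧ 0 < (N : ℤ) - G.eval (n : ℤ)}.Finite := by
      apply (Set.finite_Iio (n₁ + (N + (-(G.eval (n₁ : ℤ))).toNat) + 1)).subset
      rintro n ⟨_, hn⟩
      rw [Set.mem_Iio]
      by_contra hcon
      rw [not_lt] at hcon
      have h1 := hinf (N + (-(G.eval (n₁ : ℤ))).toNat)
      have h2 := hle (n₁ + (N + (-(G.eval (n₁ : ℤ))).toNat)) n (by omega) (by omega)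
      have h3 : -(G.eval (n₁ : ℤ)) ≤ ((-(G.eval (n₁ : ℤ))).toNat : ℤ) := Int.self_le_toNat _
      push_cast at h1 h2
      linarith
    set A : Finset ℕ := hfin.toFinset with hA
    have hAm : ∀ n, n ∈ A ↔ (1 ≤ n ∧ 0 < (N : ℤ) - G.eval (n : ℤ)) := by
      intro n
      rw [hA, Set.Finite.mem_toFinset]
      exact Iff.rfl
    have hX : X₀ G N = A.card := by
      unfold X₀
      rw [hA, Set.ncard_eq_toFinset_card _ hfin]
    intro n
    rw [← hAm, hX]
    constructor
    · intro hn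
      refine ⟨((hAm n).1 hn).1, ?_⟩
      have h1 : Icc 1 n ⊆ A := by
        intro m hm
        rw [mem_Icc] at hm
        exact (hAm m).2 ⟨hm.1, hdown m n hm.1 hm.2 ((hAm n).1 hn).2⟩
      have := card_le_card h1
      simpa using this
    · rintro ⟨h1, h2⟩
      by_contra hcon
      have h3 : A ⊆ Icc 1 (n - 1) := by
        intro m hm
        rw [mem_Icc]
        have hm' := (hAm m).1 hm
        refine ⟨hm'.1, ?_⟩
        by_contra h4
        exact hcon ((hAm n).2 ⟨h1, hdown n m h1 (by omega) hm'.2⟩)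
      have := card_le_card h3
      rw [Nat.card_Icc] at this
      omega
  have hev : ∀ᶠ N : ℕ in atTop, M < (N : ℤ) := by
    filter_upwards [eventually_gt_atTop M.toNat] with N hN
    omega
  refine ⟨?_, hev.mono hseg⟩
  rw [tendsto_atTop]
  intro b
  filter_upwards [hev, eventually_gt_atTop (∑ n ∈ range (b + 1), |G.eval (n : ℤ)|).toNat] with N h1 h2
  rcases Nat.eq_zero_or_pos b with hb | hb
  · omega
  refine ((hseg N h1 b).1 ⟨hb, ?_⟩).2
  have h3 : G.eval (b : ℤ) ≤ ∑ n ∈ range (b + 1), |G.eval (n : ℤ)| := by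
    refine (le_abs_self _).trans ?_
    exact single_le_sum (f := fun n : ℕ => |G.eval (n : ℤ)|) (fun _ _ => abs_nonneg _) (mem_range.2 (by omega))
  have h4 : (∑ n ∈ range (b + 1), |G.eval (n : ℤ)|) ≤ (((∑ n ∈ range (b + 1), |G.eval (n : ℤ)|).toNat : ℕ) : ℤ) :=
    Int.self_le_toNat _
  have h5 : ((((∑ n ∈ range (b + 1), |G.eval (n : ℤ)|).toNat : ℕ) : ℤ)) < (N : ℤ) := by exact_mod_cast h2
  linarith
where
  eventually_pos_diff (G : ℤ[X]) (hG : 1 ≤ G.natDegree) (hGl : 0 < G.leadingCoeff) :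
      ∃ n₁ : ℕ, ∀ n : ℕ, n₁ ≤ n → G.eval (n : ℤ) < G.eval ((n + 1 : ℕ) : ℤ) := by
    -- the real polynomial and its derivative
    set g : ℝ[X] := G.map (Int.castRingHom ℝ) with hg
    have hinj : Function.Injective (Int.castRingHom ℝ) := Int.cast_injective
    have hgd : g.natDegree = G.natDegree := natDegree_map_eq_of_injective hinj G
    have hgl : g.leadingCoeff = (G.leadingCoeff : ℝ) := by
      rw [hg, leadingCoeff_map_of_injective hinj]
      rfl
    have hgl0 : 0 < g.leadingCoeff := by rw [hgl]; exact_mod_cast hGl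
    have hdl : 0 < g.derivative.leadingCoeff := by
      have h1 : g.derivative.natDegree = g.natDegree - 1 := natDegree_derivative _
      rw [leadingCoeff, h1, coeff_derivative]
      have h2 : g.natDegree - 1 + 1 = g.natDegree := by omega
      rw [h2]
      have h3 : (0 : ℝ) < ((g.natDegree - 1 : ℕ) : ℝ) + 1 := by positivity
      exact mul_pos hgl0 h3
    have hpos : ∀ᶠ t : ℝ in atTop, 0 < g.derivative.eval t := by
      by_cases hdeg : 0 < g.derivative.degree
      · exact (g.derivative.tendsto_atTop_of_leadingCoeff_nonneg hdeg hdl.le).eventually_gt_atTop 0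
      · have h1 : g.derivative = C (g.derivative.coeff 0) := eq_C_of_degree_le_zero (not_lt.1 hdeg)
        have h2 : 0 < g.derivative.coeff 0 := by
          rw [h1, leadingCoeff_C] at hdl
          exact hdl
        filter_upwards with t
        rw [h1, eval_C]
        exact h2
    obtain ⟨T, hT⟩ := eventually_atTop.1 hpos
    refine ⟨⌈|T|⌉₊, fun n hn => ?_⟩
    have hnT : T ≤ n := by
      have h1 : |T| ≤ (⌈|T|⌉₊ : ℝ) := Nat.le_ceil _
      have h2 : ((⌈|T|⌉₊ : ℕ) : ℝ) ≤ n := by exact_mod_cast hn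
      have h3 := le_abs_self T
      linarith
    have hmono : StrictMonoOn (fun t => g.eval t) (Set.Ici (n : ℝ)) := by
      apply strictMonoOn_of_deriv_pos (convex_Ici _) g.continuous.continuousOn
      intro t ht
      rw [interior_Ici] at ht
      rw [Polynomial.deriv]
      exact hT t (hnT.trans ht.le)
    have h1 := hmono (Set.mem_Ici.2 le_rfl) (Set.mem_Ici.2 (by linarith : (n : ℝ) ≤ (n : ℝ) + 1))
      (by linarith : (n : ℝ) < (n : ℝ) + 1)
    have h2 : ∀ m : ℕ, g.eval (m : ℝ) = ((G.eval (m : ℤ) : ℤ) : ℝ) := by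
      intro m
      rw [hg, eval_natCast_map]
      rfl
    have h3 : ((n : ℝ) + 1) = ((n + 1 : ℕ) : ℝ) := by push_cast; ring
    simp only at h1
    rw [h3, h2, h2] at h1
    exact_mod_cast h1

variable {g : ℕ} {F : Fin g → ℤ[X]} {G : ℤ[X]}

theorem sys_deg (hF : ∀ i, 1 ≤ (F i).natDegree) (hG : 1 ≤ G.natDegree) (N : ℕ) :
    (∀ i, 1 ≤ ((system F G N) i).natDegree) ∧
      ∑ i, ((system F G N) i).natDegree = (∑ i, (F i).natDegree) + G.natDegree := by
  have h1 : (C (N : ℤ) - G).natDegree = G.natDegree := by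
    rw [← natDegree_neg, neg_sub, natDegree_sub_C]
  unfold system
  constructor
  · intro i
    refine Fin.lastCases ?_ (fun j => ?_) i
    · rw [Fin.snoc_last, h1]; exact hG
    · rw [Fin.snoc_castSucc]; exact hF j
  · rw [Fin.sum_univ_castSucc]
    simp only [Fin.snoc_castSucc, Fin.snoc_last, h1]

theorem sol_sub (N : ℕ) : solutions F G N ⊆ primeArguments (system F G N) := by
  rintro n ⟨_, h1, p, hp, hpe⟩
  intro i
  refine Fin.lastCases ?_ (fun j => ?_) i
  · unfold system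
    rw [Fin.snoc_last]
    have : (C (N : ℤ) - G).eval (n : ℤ) = (p : ℤ) := by
      rw [eval_sub, eval_C]
      exact hpe
    rw [this]
    simpa using hp
  · unfold system
    rw [Fin.snoc_castSucc]
    obtain ⟨q, hq, hqe⟩ := h1 j
    rw [hqe]
    simpa using hq

theorem order_tendsto (hF : ∀ i, 1 ≤ (F i).natDegree) (hG : 1 ≤ G.natDegree) (hGl : 0 < G.leadingCoeff) :
    Tendsto (order F G) (toInfinity F G) atTop := by
  set D : ℕ := (∑ i, (F i).natDegree) + G.natDegree with hD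
  have hD1 : 1 ≤ D := by omega
  obtain ⟨c, hc0, hV⟩ := VV_ge D hD1
  have hX := (G_facts G hG hGl).1
  have h1 : ∀ᶠ N in toInfinity F G, √((X₀ G N : ℕ) : ℝ) ≤ order F G N := by
    have h2 : ∀ᶠ N : ℕ in atTop, max 2 (2 ^ 1) ≤ X₀ G N := hX.eventually (eventually_ge_atTop _)
    obtain ⟨i₁, hi₁⟩ := eventually_atTop.1 (poly_exp (4 * D) (2 / c ^ 2))
    have h3 : ∀ᶠ N : ℕ in atTop, 2 ^ (max i₁ 1) ≤ X₀ G N := hX.eventually (eventually_ge_atTop _)
    unfold toInfinity
    rw [eventually_inf_principal]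
    filter_upwards [h2, h3] with N e1 e2 hfix
    set x := X₀ G N with hx
    have hx0 : x ≠ 0 := by
      have := (le_max_left 2 (2 ^ 1)).trans e1
      omega
    have hadm : Adm D (omP (system F G N)) := adm_omP _ hfix (sys_deg hF hG N).2.le
    have a1 := Nat.pow_log_le_self 2 hx0
    have a2 := Nat.lt_pow_succ_log_self (b := 2) (by norm_num) x
    have a4 : max i₁ 1 ≤ Nat.log 2 x := Nat.le_log_of_pow_le (by norm_num) e2
    set i := Nat.log 2 x with hi
    have h5 := hV _ hadm (i + 1) x (by omega) a2.le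
    have h6 := hi₁ (i + 1) (by
      have := (le_max_left i₁ 1).trans a4
      omega)
    set P : ℝ := (((i + 1 : ℕ) : ℝ) + 1) ^ (2 * D) with hP
    have hP0 : 0 < P := by positivity
    have h7 : 2 / c ^ 2 * P ^ 2 ≤ 2 ^ (i + 1) := by
      rw [hP, ← pow_mul]
      have : 2 * D * 2 = 4 * D := by ring
      rw [this]
      exact h6
    have hxr : (0 : ℝ) < x := by exact_mod_cast (by omega : 0 < x)
    have h8 : (2 : ℝ) ^ i ≤ x := by exact_mod_cast a1
    -- `√x ≤ x c / P`
    have h9 : P ^ 2 ≤ c ^ 2 * x := by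
      have h10 : 2 / c ^ 2 * P ^ 2 ≤ 2 * x := by
        calc 2 / c ^ 2 * P ^ 2 ≤ 2 ^ (i + 1) := h7
          _ = 2 * 2 ^ i := by ring
          _ ≤ 2 * x := by linarith
      rw [div_mul_eq_mul_div, div_le_iff₀ (by positivity)] at h10
      nlinarith
    have h10 : P ≤ c * √(x : ℝ) := by
      have h11 : P ^ 2 ≤ (c * √(x : ℝ)) ^ 2 := by
        rw [mul_pow, Real.sq_sqrt hxr.le]; exact h9
      exact (abs_le_of_sq_le_sq' h11 (by positivity)).2
    unfold order
    rw [expected_eq, ← hx]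
    have hs : √(x : ℝ) * √(x : ℝ) = x := Real.mul_self_sqrt hxr.le
    have hs0 : 0 < √(x : ℝ) := Real.sqrt_pos.2 hxr
    calc √(x : ℝ) ≤ x * (c / P) := by
          rw [mul_div_assoc', le_div_iff₀ hP0]
          nlinarith
      _ ≤ x * VV (omP (system F G N)) x := mul_le_mul_of_nonneg_left h5 hxr.le
  have h2 : Tendsto (fun N => √((X₀ G N : ℕ) : ℝ)) (toInfinity F G) atTop :=
    (Real.tendsto_sqrt_atTop.comp ((tendsto_natCast_atTop_atTop (R := ℝ)).comp hX)).mono_left inf_le_left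
  exact tendsto_atTop_mono' _ h1 h2

end Proofs

/-- **Schinzel's Goldbach-type question for every `N`, in residue classes to large moduli.**

(1) For all `D ≥ 1` and `ε > 0` there are `P₀`, `x₀` and `δ > 0` such that for ALL systems `f` of nonconstant
integer polynomials of total degree at most `D` without a fixed prime divisor, with ARBITRARY
coefficients, EVERY set `S` of integers `n` for which all `|f_i(n)|` are primes, every `x ≥ x₀`, every
multiple `P` of `P₀` and all `1 ≤ Q ≤ δ E`, `E = x ∏_{p ≤ x} (1 - ω(p) / p)`, the sum over `Q ≤ q < 2 Q` and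
over all `a` modulo `q` of the squares of `#S(x; q, a) - (g / q) #S(x; g, a)`, `g = gcd(q, P)`, is at most
`ε E²`.

(2) For all nonconstant `F_1, …, F_g, G` with positive leading coefficient of `G`: for all large `N` the
solutions `n` for `N` are at most `X(N)`; for all sets `S_N` of solutions (for instance the sets of all
solutions) and all main terms `c_N(q, a)` which are consistent for each `N` the following are equivalent, as
`N → ∞` through the integers for which there is no fixed prime divisor: (i) the law in all fixed residue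
classes; (ii) the mean square law for the moduli up to `δ E_N`; (iii) the mean square law at one scale
`Q(N)` which tends to infinity. -/
theorem result :
    (∀ D : ℕ, 1 ≤ D → ∀ ε : ℝ, 0 < ε → ∃ (P₀ x₀ : ℕ) (δ : ℝ), 1 ≤ P₀ ∧ 2 ≤ x₀ ∧ 0 < δ ∧
      ∀ (r : ℕ) (f : Fin r → ℤ[X]), (∀ i, 1 ≤ (f i).natDegree) → ∑ i, (f i).natDegree ≤ D →
      NoFixedPrime f → ∀ S : Set ℕ, S ⊆ primeArguments f → ∀ x : ℕ, x₀ ≤ x → ∀ P : ℕ, 1 ≤ P → P₀ ∣ P →
      ∀ Q : ℕ, 1 ≤ Q → (Q : ℝ) ≤ δ * expected f x → relative S x P Q ≤ ε * expected f x ^ 2) ∧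
    ∀ (g : ℕ) (F : Fin g → ℤ[X]) (G : ℤ[X]), (∀ i, 1 ≤ (F i).natDegree) → 1 ≤ G.natDegree →
      0 < G.leadingCoeff →
      (∀ᶠ N : ℕ in atTop, ∀ n ∈ solutions F G N, n ≤ X₀ G N) ∧
      ∀ S : ℕ → Set ℕ, (∀ N, S N ⊆ solutions F G N) → ∀ c : ℕ → ℕ → ℕ → ℝ, (∀ N, Consistent (c N)) →
        List.TFAE [Fixed F G S c, Large F G S c, OneScale F G S c] := by
  refine ⟨fun D hD ε hε => rel D hD ε hε, fun g F G hF hG hGl => ⟨?_, fun S hS c hc => ?_⟩⟩
  · filter_upwards [(G_facts G hG hGl).2] with N hN n hn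
    obtain ⟨h1, _, p, hp, hpe⟩ := hn
    refine ((hN n).1 ⟨h1, ?_⟩).2
    rw [hpe]
    exact_mod_cast hp.pos
  · have hE := order_tendsto hF hG hGl
    have hmod : ∀ N g a, count (S N) (X₀ G N) g a = count (S N) (X₀ G N) g (a % g) :=
      fun N g a => count_mod _ _ _ _
    have hsplit : ∀ N q₀ q a₀, q₀ ∣ q → 1 ≤ q → count (S N) (X₀ G N) q₀ a₀ =
        ∑ a ∈ (Finset.range q).filter (fun a => a ≡ a₀ [MOD q₀]), count (S N) (X₀ G N) q a :=
      fun N q₀ q a₀ h1 h2 => count_split h1 h2 _ _ _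
    have hmn : ∀ N q₀ q a₀, 1 ≤ q → q₀ ∣ q → a₀ < q₀ →
        c N q₀ a₀ = ∑ b ∈ (Finset.range q).filter (fun b => b ≡ a₀ [MOD q₀]), c N q b :=
      fun N q₀ q a₀ h1 h2 h3 => hc N q₀ q a₀ h1 h2 h3
    have hrel : ∀ ε : ℝ, 0 < ε → ∃ (P₀ : ℕ) (δ : ℝ), 1 ≤ P₀ ∧ 0 < δ ∧ ∀ᶠ N in toInfinity F G,
        ∀ P : ℕ, 1 ≤ P → P₀ ∣ P → ∀ Q : ℕ, 1 ≤ Q → (Q : ℝ) ≤ δ * order F G N →
          Pool.Agent.H90.SK.relT (count (S N) (X₀ G N)) P Q ≤ ε * order F G N ^ 2 := by
      intro ε hε
      obtain ⟨P₀, x₀, δ, hP₀, hx₀, hδ, h⟩ := rel ((∑ i, (F i).natDegree) + G.natDegree) (by omega) ε hε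
      refine ⟨P₀, δ, hP₀, hδ, ?_⟩
      unfold toInfinity
      rw [eventually_inf_principal]
      filter_upwards [(G_facts G hG hGl).1.eventually (eventually_ge_atTop x₀)] with N hN hfix P hP hPP Q hQ hQx
      exact h _ (system F G N) (sys_deg hF hG N).1 (sys_deg hF hG N).2.le hfix (S N)
        ((hS N).trans (sol_sub N)) (X₀ G N) hN P hP hPP Q hQ hQx
    tfae_have 1 → 2 := fun h => Pool.Agent.H90.SK.tf_large (cnt := fun N => count (S N) (X₀ G N)) (mn := c)
      hE hmod hrel h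
    tfae_have 2 → 3 := fun h => Pool.Agent.H90.SK.tf_one (cnt := fun N => count (S N) (X₀ G N)) (mn := c) hE h
    tfae_have 3 → 1 := fun h => Pool.Agent.H90.SK.tf_fixed (cnt := fun N => count (S N) (X₀ G N)) (mn := c)
      hE hsplit hmn h
    tfae_finish

end Pool.Agent.Results.MP_0bf1d2_nt.EveryNLargeModuli
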