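import Pool.Agent.H90.SH.Law

/-!
# Schinzel's Goldbach-type hypothesis in residue classes to large moduli, for almost all constant terms

Let `F_1, ..., F_g, G` be arbitrary fixed nonconstant integer polynomials with positive leading coefficients. For almost
all `(N, a_1, ..., a_g)` in boxes `1 ≤ N ≤ M`, `1 ≤ a_i ≤ A_i` (`M` of the order of `x ^ deg G`, `A_i` of the order of
`x ^ deg F_i`) the positive integers `n` for which `F_1(n) + a_1, ..., F_g(n) + a_g` and `N - G(n)` are all primes are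
distributed among ALL residue classes modulo almost all `q` as Schinzel's formula predicts, for `q` up to a constant times
their number, in mean square: the theorem of Barban, Davenport and Halberstam, in the range of moduli up to the order of
the number of the solutions, for the prime values of almost all polynomial systems of any degrees.

Method: (1) Schinzel's formula for almost all constant terms (library, project SHN), applied to the polynomials
`F_i(q X + b)`, `G(q X + b)`, gives the fixed classes; (2) the theorem on all sets of prime arguments of all systems of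
polynomials in the hand-in `EveryNLargeModuli` (large sieve for sifted sets at arbitrary points, no loss of logarithms)
reduces the large moduli to fixed ones, in terms of the product over all primes up to `X`; (3) a second moment estimate for
the numbers of zeros modulo primes shows that for almost all constant terms this product has the order of Schinzel's main
term (modules One, Two, Three written by helper11).

No unproved hypothesis is made.
-/

set_option autoImplicit false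

namespace Pool.Agent.Results.MP_0bf1d2_nt.ConstantTermsLargeModuli

open Finset Polynomial

variable {g : ℕ}

section Definitions

/-- `F_1(n) + a_1, ..., F_g(n) + a_g` and `N - G(n)` are (positive) primes. -/
def AllPrime (F : Fin g → ℤ[X]) (a : Fin g → ℕ) (G : ℤ[X]) (N n : ℕ) : Prop :=
  (∀ i, ((F i).eval (n : ℤ) + a i).toNat.Prime) ∧ ((N : ℤ) - G.eval (n : ℤ)).toNat.Prime

/-- The number of the positive integers `n ≡ b` modulo `q` such that `F_1(n) + a_1, ..., F_g(n) + a_g` and `N - G(n)` are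
all primes. -/
noncomputable def count (F : Fin g → ℤ[X]) (a : Fin g → ℕ) (G : ℤ[X]) (N q b : ℕ) : ℕ :=
  {n : ℕ | 1 ≤ n ∧ AllPrime F a G N n ∧ n ≡ b [MOD q]}.ncard

/-- `X(N)`: the number of the positive integers `n` with `N - G(n) > 0`. -/
noncomputable def X₁ (G : ℤ[X]) (N : ℕ) : ℕ := {n : ℕ | 1 ≤ n ∧ 0 < (N : ℤ) - G.eval (n : ℤ)}.ncard

/-- The product `(F_1(n) + a_1) ... (F_g(n) + a_g) (N - G(n))`. -/
def product (F : Fin g → ℤ[X]) (a : Fin g → ℕ) (G : ℤ[X]) (N : ℕ) (n : ℤ) : ℤ :=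
  (∏ i, ((F i).eval n + a i)) * (N - G.eval n)

/-- The product has no fixed prime divisor. -/
def NoFixedDivisor (F : Fin g → ℤ[X]) (a : Fin g → ℕ) (G : ℤ[X]) (N : ℕ) : Prop :=
  ∀ p : ℕ, p.Prime → ∃ n : ℤ, ¬ (p : ℤ) ∣ product F a G N n

/-- The number of the residues `r` modulo `p` at which the product is divisible by `p`. -/
def omega (F : Fin g → ℤ[X]) (a : Fin g → ℕ) (G : ℤ[X]) (N p : ℕ) : ℕ :=
  ((range p).filter (fun r : ℕ => (p : ℤ) ∣ product F a G N r)).card

/-- The product of Schinzel's local factors `(1 - omega(p) / p) (1 - 1 / p) ^ (-(g + 1))` over the primes `p ≤ z`. -/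
noncomputable def sing (F : Fin g → ℤ[X]) (a : Fin g → ℕ) (G : ℤ[X]) (N z : ℕ) : ℝ :=
  ∏ p ∈ (Icc 1 z).filter Nat.Prime, (1 - (omega F a G N p : ℝ) / p) / (1 - 1 / (p : ℝ)) ^ (g + 1)

/-- Schinzel's main term `X / (log X) ^ (g + 1) * (h_0 h_1 ... h_g)⁻¹ * sing z`, where `h_i` are the degrees. -/
noncomputable def main (F : Fin g → ℤ[X]) (a : Fin g → ℕ) (G : ℤ[X]) (N z : ℕ) : ℝ :=
  sing F a G N z * X₁ G N / ((G.natDegree * ∏ i, ((F i).natDegree : ℝ)) * Real.log (X₁ G N) ^ (g + 1))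

/-- The class `b` modulo `q` is open: the product at `b` is coprime to `q`. -/
def Open (F : Fin g → ℤ[X]) (a : Fin g → ℕ) (G : ℤ[X]) (N q b : ℕ) : Prop :=
  Int.gcd (product F a G N b) q = 1

open Classical in
/-- The number of the open classes modulo `q`. -/
noncomputable def classes (F : Fin g → ℤ[X]) (a : Fin g → ℕ) (G : ℤ[X]) (N q : ℕ) : ℕ :=
  ((range q).filter (fun b => Open F a G N q b)).card

open Classical in
/-- The expected number in the class `b` modulo `q`. -/
noncomputable def predicted (F : Fin g → ℤ[X]) (a : Fin g → ℕ) (G : ℤ[X]) (N z q b : ℕ) : ℝ :=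
  if Open F a G N q b then main F a G N z / classes F a G N q else 0

/-- The law: for all `1 ≤ Q ≤ δ main` the sum over `Q ≤ q < 2 Q` and over ALL classes `b` modulo `q` of the squares of
`count - predicted` is at most `ε main ^ 2`. -/
def Law (F : Fin g → ℤ[X]) (a : Fin g → ℕ) (G : ℤ[X]) (N z : ℕ) (δ ε : ℝ) : Prop :=
  ∀ Q : ℕ, 1 ≤ Q → (Q : ℝ) ≤ δ * main F a G N z →
    ∑ q ∈ Ico Q (2 * Q), ∑ b ∈ range q, ((count F a G N q b : ℝ) - predicted F a G N z q b) ^ 2 ≤
      ε * main F a G N z ^ 2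

end Definitions

/-! ### proofs -/

section Proofs

open Pool.Agent.H90.SK Pool.Agent.H90.SH

theorem main_eq (F : Fin g → ℤ[X]) (a : Fin g → ℕ) (G : ℤ[X]) (N z : ℕ) :
    main F a G N z = Pool.Agent.H373R2.T7.SHN.expected F a G N z := rfl

theorem open_iff (F : Fin g → ℤ[X]) (a : Fin g → ℕ) (G : ℤ[X]) (N : ℕ) {q : ℕ} (hq : 1 ≤ q) (b : ℕ) :
    Open F a G N q b ↔ AD (omP (sy F a G N)) q b := by
  rw [AD_sy]
  unfold Open Op
  have e : product F a G N b = PV F a G N b := rfl
  rw [e]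
  constructor
  · intro h p hp hd
    have hpp := Nat.prime_of_mem_primeFactors hp
    have hpq : (p : ℤ) ∣ q := by exact_mod_cast Nat.dvd_of_mem_primeFactors hp
    have h1 : (p : ℤ) ∣ (Int.gcd (PV F a G N b) q : ℤ) := Int.dvd_coe_gcd hd hpq
    rw [h] at h1
    have h2 : p ∣ 1 := by exact_mod_cast h1
    exact hpp.one_lt.ne' (Nat.dvd_one.1 h2)
  · intro h
    by_contra hcon
    obtain ⟨p, hpp, hd⟩ := Nat.exists_prime_and_dvd hcon
    have h1 : (p : ℤ) ∣ (Int.gcd (PV F a G N b) q : ℤ) := by exact_mod_cast hd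
    have h2 : (p : ℤ) ∣ PV F a G N b := h1.trans (Int.gcd_dvd_left _ _)
    have h3 : (p : ℤ) ∣ (q : ℤ) := h1.trans (Int.gcd_dvd_right _ _)
    exact h p (Nat.mem_primeFactors.2 ⟨hpp, by exact_mod_cast h3, by omega⟩) h2

theorem classes_eq (F : Fin g → ℤ[X]) (a : Fin g → ℕ) (G : ℤ[X]) (N : ℕ) {q : ℕ} (hq : 1 ≤ q) :
    classes F a G N q = ad (omP (sy F a G N)) q := by
  classical
  unfold classes ad
  congr 1
  apply filter_congr
  intro b _
  exact open_iff F a G N hq b

theorem predicted_eq (F : Fin g → ℤ[X]) (a : Fin g → ℕ) (G : ℤ[X]) (N z : ℕ) {q : ℕ} (hq : 1 ≤ q) (b : ℕ) :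
    predicted F a G N z q b =
      Pool.Agent.H373R2.T7.SHN.expected F a G N z * mm (omP (sy F a G N)) q b := by
  classical
  unfold predicted mm
  rw [classes_eq F a G N hq, main_eq]
  by_cases h : Open F a G N q b
  · rw [if_pos h, if_pos ((open_iff F a G N hq b).1 h)]
    ring
  · rw [if_neg h, if_neg (fun h' => h ((open_iff F a G N hq b).2 h')), mul_zero]

theorem count_eq (F : Fin g → ℤ[X]) (a : Fin g → ℕ) {G : ℤ[X]} {N : ℕ}
    (hseg : ∀ n : ℕ, (1 ≤ n ∧ 0 < (N : ℤ) - G.eval (n : ℤ)) ↔ (1 ≤ n ∧ n ≤ Pool.Agent.H373R2.T7.SHN.X1 G N)) (q b : ℕ) :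
    (count F a G N q b : ℝ) = Pool.Agent.Results.MP_0bf1d2_nt.EveryNLargeModuli.count (Sol F a G N)
      (Pool.Agent.H373R2.T7.SHN.X1 G N) q b := by
  unfold count Pool.Agent.Results.MP_0bf1d2_nt.EveryNLargeModuli.count
  congr 2
  ext n
  simp only [Set.mem_ofPred_eq]
  constructor
  · rintro ⟨h1, h2, h3⟩
    have h4 : n ∈ Sol F a G N := ⟨h1, h2⟩
    exact ⟨h4, h1, Sol_le hseg h4, h3⟩
  · rintro ⟨h1, h2, _, h4⟩
    exact ⟨h2, h1.2, h4⟩

theorem law_of {F : Fin g → ℤ[X]} {a : Fin g → ℕ} {G : ℤ[X]} {N z : ℕ} {δ ε : ℝ}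
    (hseg : ∀ n : ℕ, (1 ≤ n ∧ 0 < (N : ℤ) - G.eval (n : ℤ)) ↔ (1 ≤ n ∧ n ≤ Pool.Agent.H373R2.T7.SHN.X1 G N))
    (h : LL F a G N z δ ε) : Law F a G N z δ ε := by
  intro Q hQ hQδ
  have h1 := h Q hQ hQδ
  refine le_trans (le_of_eq ?_) h1
  apply sum_congr rfl
  intro q hq
  rw [mem_Ico] at hq
  apply sum_congr rfl
  intro b _
  rw [count_eq F a hseg, predicted_eq F a G N z (by omega : 1 ≤ q)]

end Proofs

open Classical in
/-- **Schinzel's Goldbach-type hypothesis in residue classes to large moduli, for almost all constant terms.** Let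
`F_1, ..., F_g, G` be nonconstant integer polynomials with positive leading coefficients, `B ≥ 1`, `ρ, ε > 0`. There is
`δ > 0` such that for every `U` there is `B₀` such that for every `E` and all large `x`: if `M` and `A_i` are within a factor
`B` of `x ^ deg G` and `x ^ deg F_i`, `G(n) ≥ M` for all `n > x`, and `(log x) ^ B₀ ≤ z ≤ (log x) ^ E`, then for all `(N, a)`
with `1 ≤ N ≤ M`, `1 ≤ a_i ≤ A_i`, with at most `M A_1 ... A_g / (log x) ^ U` exceptions: if the product
`(F_1 + a_1) ... (F_g + a_g) (N - G)` has no fixed prime divisor and `X(N) ≥ ρ x`, then for all `1 ≤ Q ≤ δ main` the sum over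
all `Q ≤ q < 2 Q` and over ALL classes `b` modulo `q` of the squares of the differences of the number of the solutions in
the class and the number predicted by Schinzel's formula is at most `ε main ^ 2`. -/
theorem result (g : ℕ) (F : Fin g → ℤ[X]) (hF : ∀ i, 1 ≤ (F i).natDegree) (hFl : ∀ i, 0 < (F i).leadingCoeff)
    (G : ℤ[X]) (hG : 1 ≤ G.natDegree) (hGl : 0 < G.leadingCoeff) (B : ℕ) (hB : 1 ≤ B) (ρ ε : ℝ) (hρ : 0 < ρ)
    (hε : 0 < ε) :
    ∃ δ : ℝ, 0 < δ ∧ ∀ U : ℕ, ∃ B₀ : ℕ, ∀ E : ℕ, ∃ x₀ : ℕ, ∀ x : ℕ, x₀ ≤ x →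
      ∀ M : ℕ, M ≤ B * x ^ G.natDegree → x ^ G.natDegree ≤ B * M → (∀ n : ℕ, x < n → (M : ℤ) ≤ G.eval (n : ℤ)) →
      ∀ A : Fin g → ℕ, (∀ i, A i ≤ B * x ^ (F i).natDegree ∧ x ^ (F i).natDegree ≤ B * A i) →
      ∀ z : ℕ, Real.log x ^ B₀ ≤ z → (z : ℝ) ≤ Real.log x ^ E →
      (((Icc 1 M ×ˢ Fintype.piFinset (fun i => Icc 1 (A i))).filter (fun v : ℕ × (Fin g → ℕ) =>
        ¬ (NoFixedDivisor F v.2 G v.1 → ρ * x ≤ X₁ G v.1 → Law F v.2 G v.1 z δ ε))).card : ℝ) ≤
        (M * ∏ i, (A i : ℝ)) / Real.log x ^ U := by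
  obtain ⟨δ, hδ, h⟩ := Pool.Agent.H90.SH.law F hF hFl G hG hGl B hB ρ ε hρ hε
  obtain ⟨x₁, hx₁⟩ := Pool.Agent.H90.SH.seg hG hGl hρ
  refine ⟨δ, hδ, fun U => ?_⟩
  obtain ⟨B₀, h⟩ := h U
  refine ⟨B₀, fun E => ?_⟩
  obtain ⟨x₀, h⟩ := h E
  refine ⟨max x₀ x₁, fun x hx M hM1 hM2 hM3 A hA z hz1 hz2 => ?_⟩
  refine le_trans ?_ (h x ((le_max_left _ _).trans hx) M hM1 hM2 hM3 A hA z hz1 hz2)
  apply Nat.cast_le.2
  apply card_le_card
  intro v hv
  rw [mem_filter] at hv ⊢
  refine ⟨hv.1, fun hl => hv.2 (fun hfix hρX => ?_)⟩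
  exact law_of (hx₁ x ((le_max_right _ _).trans hx) v.1 hρX) (hl hfix hρX)

end Pool.Agent.Results.MP_0bf1d2_nt.ConstantTermsLargeModuli
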