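import Pool.Agent.H90.GB.Pair
import Pool.Agent.Results.MP_0bf1d2_nt.EveryNLargeModuli
import Pool.Graph.R_pool_sql_team_seeded_63374d34.Results.MP_0bf1d2_nt.SmoothNumbers

/-!
# Goldbach's problem in the residue classes to individually large moduli, for almost all numbers

`F(x) = x`, `G(x) = m x`: the equation `t = m n + n'` in primes `n`, `n'` (`m = 1`: Goldbach; `m = 2`:
Lemoine), for all `m ≤ M` at once.  The asymptotic formula is proved for the solutions with `n` in a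
residue class to a modulus as large as `δ t / log ^ 2 t`, in mean square over the classes and the
moduli (a theorem of Barban–Davenport–Halberstam type for the solutions for ONE number `t`, up to the
order of the number of the solutions), for all but `N / log ^ U N` of the numbers `t ≤ N`, and for ALL
numbers `t` near almost all smooth numbers, or near almost all numbers composed of an arbitrary set of
small primes (sets with as few as `N ^ (1 / 2 + ρ)` elements below `N`).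

Method: the large sieve for sifted sets at arbitrary well-spaced points (`Pool.Agent.H90.SK`) deduces
the law for large moduli from the law in the classes to bounded moduli, for every single `t`; the law in the
classes to bounded moduli is the theorem on smooth numbers of the library. The main terms modulo `q`
and modulo the bounded part of `q` are compared in `Pool.Agent.H90.SK.Ex`.

No unproved hypothesis is made.
-/

set_option autoImplicit false

namespace Pool.Agent.Results.MP_0bf1d2_nt.GoldbachLargeModuli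

open Finset

section Definitions

/-- The solutions of `t = m n + n'` in primes: the primes `n` for which `t - m n` is a (positive) prime. -/
def solutions (t m : ℕ) : Set ℕ := {n : ℕ | n.Prime ∧ m * n < t ∧ (t - m * n).Prime}

/-- The number of the solutions with `n ≡ a` modulo `q`. -/
noncomputable def count (t m q a : ℕ) : ℝ := (Set.ncard {n : ℕ | n ∈ solutions t m ∧ n ≡ a [MOD q]} : ℝ)

/-- No prime divides `n (t - m n)` for all integers `n`. (This means that `t` and `m` are coprime and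
`t + m` is odd.) -/
def Admissible (t m : ℕ) : Prop := ∀ p : ℕ, p.Prime → ∃ n : ℤ, ¬ (p : ℤ) ∣ n * (t - m * n)

/-- The class `a` modulo `q` is open: `a` and `t - m a` are coprime to `q`. -/
def Open (t m q a : ℕ) : Prop := Nat.Coprime a q ∧ Int.gcd ((t : ℤ) - m * a) q = 1

/-- The number of the open classes modulo `q`. -/
noncomputable def classes (t m q : ℕ) : ℕ := Set.ncard {a : ℕ | a < q ∧ Open t m q a}

/-- The twin prime constant `∏_{p > 2} (1 - 1 / (p - 1) ^ 2)`: the infimum (the limit) of the decreasing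
partial products. -/
noncomputable def C₂ : ℝ := ⨅ z : ℕ, ∏ p ∈ (Icc 3 z).filter Nat.Prime, (1 - 1 / ((p : ℝ) - 1) ^ 2)

/-- The main term of Schinzel's formula: `2 C₂ ∏_{p ∣ m t, p > 2} (p - 1) / (p - 2) (t / m) / log ^ 2 t`. -/
noncomputable def main (t m : ℕ) : ℝ :=
  2 * C₂ * (∏ p ∈ (m * t).primeFactors.filter (fun p => 2 < p), ((p : ℝ) - 1) / ((p : ℝ) - 2)) *
    ((t : ℝ) / m) / Real.log t ^ 2

open Classical in
/-- The main term for the class `a` modulo `q`. -/
noncomputable def predicted (t m q a : ℕ) : ℝ := if Open t m q a then main t m / classes t m q else 0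

/-- The mean square law for all moduli up to `δ main`. -/
def Law (ε δ : ℝ) (t m : ℕ) : Prop :=
  ∀ Q : ℕ, 1 ≤ Q → (Q : ℝ) ≤ δ * main t m →
    ∑ q ∈ Ico Q (2 * Q), ∑ a ∈ range q, (count t m q a - predicted t m q a) ^ 2 ≤ ε * main t m ^ 2

/-- The integers `1 ≤ v ≤ N` all of whose prime factors belong to `P`. -/
def composedOf (P : Finset ℕ) (N : ℕ) : Finset ℕ := (Icc 1 N).filter fun v => v.primeFactors ⊆ P

/-- The integers `1 ≤ v ≤ N` all of whose prime factors are at most `y`. -/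
def smooth (y N : ℕ) : Finset ℕ := (Icc 1 N).filter fun v => ∀ p ∈ v.primeFactors, p ≤ y

/-- The law fails for some `m ≤ M` and some `t` with `|t - v| ≤ (log N) ^ A` and
`N / (log N) ^ W ≤ t ≤ B N`. -/
def FailsNear (ε δ : ℝ) (A B M W N : ℕ) (v : ℤ) : Prop :=
  ∃ t : ℕ, |((t : ℤ) - v : ℝ)| ≤ Real.log N ^ A ∧ (N : ℝ) / Real.log N ^ W ≤ t ∧ t ≤ B * N ∧
    ∃ m : ℕ, 1 ≤ m ∧ m ≤ M ∧ Admissible t m ∧ ¬ Law ε δ t m

end Definitions

/-! ### proofs -/

section Proofs

open Pool.Agent.H90.SK Pool.Agent.H90.GB Filter Topology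

theorem Open_eq (t m q a : ℕ) : Open t m q a = Op t m q a := rfl

theorem main_eq (t m : ℕ) : main t m = mainT t m := rfl

theorem classes_eq {t m q : ℕ} (hq : 1 ≤ q) : classes t m q = ad (omP (pr t m)) q := by
  classical
  unfold classes ad
  rw [← Set.ncard_coe_finset]
  congr 1
  ext a
  simp only [coe_filter, mem_range, Set.mem_ofPred_eq]
  rw [AD_iff hq, Open_eq]

theorem predicted_eq {t m q : ℕ} (hq : 1 ≤ q) (a : ℕ) : predicted t m q a = main t m * mm (omP (pr t m)) q a := by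
  classical
  unfold predicted mm
  rw [classes_eq hq]
  by_cases h : Open t m q a
  · rw [if_pos h, if_pos ((AD_iff hq).2 h)]
    ring
  · rw [if_neg h, if_neg (fun h1 => h ((AD_iff hq).1 h1)), mul_zero]

theorem sol_le {t m n : ℕ} (hm : 1 ≤ m) (h : n ∈ solutions t m) : 1 ≤ n ∧ n ≤ t := by
  obtain ⟨h1, h2, _⟩ := h
  exact ⟨h1.one_le, by nlinarith⟩

theorem count_eq {t m : ℕ} (hm : 1 ≤ m) (q a : ℕ) :
    count t m q a = EveryNLargeModuli.count (solutions t m) t q a := by
  unfold count EveryNLargeModuli.count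
  congr 2
  ext n
  simp only [Set.mem_ofPred_eq]
  constructor
  · rintro ⟨h1, h2⟩
    exact ⟨h1, (sol_le hm h1).1, (sol_le hm h1).2, h2⟩
  · rintro ⟨h1, _, _, h2⟩
    exact ⟨h1, h2⟩

theorem count_mod (t m g a : ℕ) : count t m g a = count t m g (a % g) := by
  unfold count
  congr 2
  ext n
  simp only [Set.mem_ofPred_eq]
  have : n ≡ a [MOD g] ↔ n ≡ a % g [MOD g] :=
    ⟨fun h => h.trans (Nat.mod_modEq a g).symm, fun h => h.trans (Nat.mod_modEq a g)⟩
  rw [this]

theorem sub_args (t m : ℕ) : solutions t m ⊆ EveryNLargeModuli.primeArguments (pr t m) := by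
  intro n hn i
  obtain ⟨h1, h2, h3⟩ := hn
  fin_cases i
  · simp only [Fin.zero_eta]
    rw [pr0]
    simpa using h1
  · simp only [Fin.mk_one]
    rw [pr1]
    have e : (t : ℤ) - m * n = ((t - m * n : ℕ) : ℤ) := by
      push_cast [Nat.cast_sub h2.le]
      ring
    rw [e, Int.natAbs_natCast]
    exact h3

theorem fin_sol {t m : ℕ} (hm : 1 ≤ m) (q a : ℕ) : {n : ℕ | n ∈ solutions t m ∧ n ≡ a [MOD q]}.Finite :=
  (Set.finite_Iic t).subset fun n hn => (sol_le hm hn.1).2

/-- the closed classes -/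
theorem closed {t m g : ℕ} (hm : 1 ≤ m) (hg : 1 ≤ g) {a : ℕ} (h : ¬ Open t m g a) :
    count t m g a ≤ 2 * g := by
  classical
  unfold count
  have hsub : {n : ℕ | n ∈ solutions t m ∧ n ≡ a [MOD g]} ⊆
      ((g.primeFactors ∪ g.primeFactors.image (fun p => (t - p) / m) : Finset ℕ) : Set ℕ) := by
    rintro n ⟨⟨h1, h2, h3⟩, h4⟩
    rw [mem_coe, mem_union, mem_image]
    unfold Open at h
    rw [not_and_or] at h
    rcases h with h | h
    · left
      rw [Nat.coprime_iff_gcd_eq_one] at h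
      obtain ⟨p, hp, hpd⟩ := Nat.exists_prime_and_dvd h
      have h5 := hpd.trans (Nat.gcd_dvd_left _ _)
      have h6 := hpd.trans (Nat.gcd_dvd_right _ _)
      have h7 : p ∣ n := (Nat.ModEq.dvd_iff h4 h6).2 h5
      have h8 : p = n := (Nat.prime_dvd_prime_iff_eq hp h1).1 h7
      rw [← h8]
      exact Nat.mem_primeFactors.2 ⟨hp, h6, by omega⟩
    · right
      obtain ⟨p, hp, hpd⟩ := Nat.exists_prime_and_dvd h
      have h5 : (p : ℤ) ∣ (t : ℤ) - m * a := (Int.natCast_dvd_natCast.2 hpd).trans (Int.gcd_dvd_left _ _)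
      have h6 : (p : ℤ) ∣ (g : ℤ) := (Int.natCast_dvd_natCast.2 hpd).trans (Int.gcd_dvd_right _ _)
      have h7 : (p : ℤ) ∣ (a : ℤ) - n := h6.trans ((Nat.modEq_iff_dvd).1 h4)
      have h8 : (p : ℤ) ∣ ((t - m * n : ℕ) : ℤ) := by
        have e : ((t - m * n : ℕ) : ℤ) = ((t : ℤ) - m * a) + m * (a - n) := by
          push_cast [Nat.cast_sub h2.le]
          ring
        rw [e]
        exact dvd_add h5 (h7.mul_left _)
      have h9 : p = t - m * n := (Nat.prime_dvd_prime_iff_eq hp h3).1 (by exact_mod_cast h8)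
      refine ⟨p, Nat.mem_primeFactors.2 ⟨hp, by exact_mod_cast h6, by omega⟩, ?_⟩
      have h10 : t - p = m * n := by omega
      rw [h10, Nat.mul_div_cancel_left n (by omega)]
  have h1 := Set.ncard_le_ncard hsub (Finset.finite_toSet _)
  rw [Set.ncard_coe_finset] at h1
  have h2 : (g.primeFactors ∪ g.primeFactors.image (fun p => (t - p) / m)).card ≤ 2 * g := by
    refine (card_union_le _ _).trans ?_
    have h3 : g.primeFactors.card ≤ g := by
      have h4 : g.primeFactors ⊆ Icc 1 g := by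
        intro p hp
        rw [mem_Icc]
        exact ⟨(Nat.prime_of_mem_primeFactors hp).one_le, Nat.le_of_mem_primeFactors hp⟩
      have := card_le_card h4
      simpa using this
    have h4 := (card_image_le (s := g.primeFactors) (f := fun p => (t - p) / m)).trans h3
    omega
  have h3 := h1.trans h2
  exact_mod_cast h3

open Pool.Agent.Results.MP_0bf1d2_nt.SmoothNumbers (Holds)

/-- the count in a class and the count of `Holds` -/
theorem count_Q {t m g a : ℕ} (hm : 1 ≤ m) (hg : 1 ≤ g) (ha : a < g) :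
    |count t m g a - (SmoothNumbers.Q₁ t a (m * a : ℕ) g m : ℝ)| ≤ 1 := by
  classical
  unfold count SmoothNumbers.Q₁
  set A : Set ℕ := {n : ℕ | n ∈ solutions t m ∧ n ≡ a [MOD g]} with hA
  set B : Set ℕ := {n : ℕ | 1 ≤ n ∧ 0 < (t : ℤ) - (g * m * n + ((m * a : ℕ) : ℤ)) ∧ ((g : ℤ) * (n : ℤ) + (a : ℤ)).toNat.Prime ∧
    ((t : ℤ) - (g * m * n + ((m * a : ℕ) : ℤ))).toNat.Prime} with hB
  have hfin : A.Finite := fin_sol hm g a
  have hBmem : ∀ n, n ∈ B ↔ 1 ≤ n ∧ g * n + a ∈ solutions t m := by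
    intro n
    rw [hB]
    unfold solutions
    simp only [Set.mem_ofPred_eq]
    have e1 : ((g : ℤ) * (n : ℤ) + (a : ℤ)).toNat = g * n + a := by
      have : ((g : ℤ) * (n : ℤ) + (a : ℤ)) = ((g * n + a : ℕ) : ℤ) := by push_cast; ring
      rw [this, Int.toNat_natCast]
    have e2 : (t : ℤ) - (g * m * n + ((m * a : ℕ) : ℤ)) = (t : ℤ) - ((m * (g * n + a) : ℕ) : ℤ) := by
      push_cast
      ring
    rw [e1, e2]
    have e3 : 0 < (t : ℤ) - ((m * (g * n + a) : ℕ) : ℤ) ↔ m * (g * n + a) < t := by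
      rw [sub_pos]
      exact_mod_cast Iff.rfl
    have e4 : ((t : ℤ) - ((m * (g * n + a) : ℕ) : ℤ)).toNat = t - m * (g * n + a) := by omega
    rw [e3, e4]
    tauto
  have h1 : (fun n => g * n + a) '' B ⊆ A := by
    rintro _ ⟨n, hn, rfl⟩
    refine ⟨((hBmem n).1 hn).2, ?_⟩
    show g * n + a ≡ a [MOD g]
    exact (Nat.modEq_zero_iff_dvd.2 ⟨n, rfl⟩ : g * n ≡ 0 [MOD g]).add_right a |>.trans (by rw [zero_add])
  have h2 : A ⊆ insert a ((fun n => g * n + a) '' B) := by
    rintro n ⟨hn1, hn2⟩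
    have h3 : n % g = a := by
      have := hn2
      unfold Nat.ModEq at this
      rwa [Nat.mod_eq_of_lt ha] at this
    have h4 : g * (n / g) + a = n := by
      have := Nat.div_add_mod n g
      rwa [h3] at this
    by_cases h5 : n / g = 0
    · left
      rw [h5] at h4
      omega
    · right
      refine ⟨n / g, (hBmem _).2 ⟨Nat.one_le_iff_ne_zero.2 h5, by rw [h4]; exact hn1⟩, h4⟩
  have hinj : Function.Injective (fun n => g * n + a) := by
    intro x y hxy
    simp only at hxy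
    exact Nat.eq_of_mul_eq_mul_left (by omega) (Nat.add_right_cancel hxy)
  have h3 : ((fun n => g * n + a) '' B).ncard = B.ncard := Set.ncard_image_of_injective B hinj
  have h4 := Set.ncard_le_ncard h1 hfin
  have h5 := Set.ncard_le_ncard h2 ((hfin.subset h1).insert a)
  have h6 := Set.ncard_insert_le a ((fun n => g * n + a) '' B)
  rw [h3] at h4 h6
  have h7 : A.ncard ≤ B.ncard + 1 := h5.trans h6
  have h8 : (B.ncard : ℝ) ≤ A.ncard := by exact_mod_cast h4
  have h9 : (A.ncard : ℝ) ≤ B.ncard + 1 := by exact_mod_cast h7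
  rw [abs_le]
  constructor <;> linarith

theorem X_bounds {t m g a : ℕ} (hm : 1 ≤ m) (hg : 1 ≤ g) (ha : a < g) (ht : m * g ≤ t) :
    (t : ℝ) / (g * m : ℕ) - 3 ≤ (SmoothNumbers.X t (m * a : ℕ) g m : ℝ) ∧
      (SmoothNumbers.X t (m * a : ℕ) g m : ℝ) ≤ t / (g * m : ℕ) := by
  have hgm : 0 < g * m := Nat.mul_pos hg hm
  have hma : m * a + 1 ≤ m * g := by nlinarith
  have e : SmoothNumbers.X t (m * a : ℕ) g m = (t - m * a - 1) / (g * m) := by
    unfold SmoothNumbers.X
    have : {n : ℕ | 1 ≤ n ∧ 0 < (t : ℤ) - (g * m * n + ((m * a : ℕ) : ℤ))} = ((Icc 1 ((t - m * a - 1) / (g * m)) : Finset ℕ) : Set ℕ) := by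
      ext n
      simp only [Set.mem_ofPred_eq, coe_Icc, Set.mem_Icc]
      have e1 : (t : ℤ) - (g * m * n + ((m * a : ℕ) : ℤ)) = (t : ℤ) - ((g * m * n + m * a : ℕ) : ℤ) := by push_cast; ring
      rw [e1, Nat.le_div_iff_mul_le hgm, sub_pos]
      have e2 : ((g * m * n + m * a : ℕ) : ℤ) < (t : ℤ) ↔ g * m * n + m * a < t := by exact_mod_cast Iff.rfl
      rw [e2]
      have e3 : n * (g * m) = g * m * n := by ring
      rw [e3]
      constructor
      · rintro ⟨h1, h2⟩
        exact ⟨h1, by omega⟩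
      · rintro ⟨h1, h2⟩
        refine ⟨h1, ?_⟩
        omega
    rw [this, Set.ncard_coe_finset, Nat.card_Icc, Nat.add_sub_cancel]
  rw [e]
  have hgm0 : (0 : ℝ) < (g * m : ℕ) := by exact_mod_cast hgm
  constructor
  · have h1 := Nat.lt_div_mul_add hgm (a := t - m * a - 1)
    have h2 : (t : ℝ) ≤ ((((t - m * a - 1) / (g * m) : ℕ) : ℝ) + 3) * (g * m : ℕ) := by
      have h3 : t ≤ ((t - m * a - 1) / (g * m) + 3) * (g * m) := by
        have h4 : m * g = g * m := mul_comm _ _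
        have h5 : ((t - m * a - 1) / (g * m) + 3) * (g * m) = (t - m * a - 1) / (g * m) * (g * m) + 3 * (g * m) := by ring
        rw [h5]
        omega
      exact_mod_cast h3
    rw [sub_le_iff_le_add, div_le_iff₀ hgm0]
    exact h2
  · refine (Nat.cast_div_le).trans ?_
    apply div_le_div_of_nonneg_right _ hgm0.le
    have : t - m * a - 1 ≤ t := by omega
    exact_mod_cast this

theorem series_eq {t m g a : ℕ} :
    SmoothNumbers.series t a (m * a : ℕ) g m = 2 * C₂ * LP (m * t) * g / classes t m g := by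
  classical
  unfold SmoothNumbers.series SmoothNumbers.classes classes LP
  have e1 : (-(m : ℤ) * ((t : ℤ) + m * (a : ℤ) - ((m * a : ℕ) : ℤ))).natAbs = m * t := by
    have : (-(m : ℤ) * ((t : ℤ) + m * (a : ℤ) - ((m * a : ℕ) : ℤ))) = -((m * t : ℕ) : ℤ) := by
      push_cast
      ring
    rw [this, Int.natAbs_neg, Int.natAbs_natCast]
  have e2 : (((range g).filter fun x : ℕ => Nat.Coprime x g ∧ Int.gcd (-(m : ℤ) * (x : ℤ) + ((t : ℤ) + m * (a : ℤ) - ((m * a : ℕ) : ℤ))) g = 1).card) =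
      Set.ncard {b : ℕ | b < g ∧ Open t m g b} := by
    rw [← Set.ncard_coe_finset]
    congr 1
    ext b
    simp only [coe_filter, mem_range, Set.mem_ofPred_eq]
    unfold Open
    have : (-(m : ℤ) * (b : ℤ) + ((t : ℤ) + m * (a : ℤ) - ((m * a : ℕ) : ℤ))) = (t : ℤ) - m * b := by
      push_cast
      ring
    rw [this]
  rw [e1, e2]
  rfl

theorem adm_of {t m g a : ℕ} (h : Admissible t m) (ho : Open t m g a) :
    SmoothNumbers.Admissible t a (m * a : ℕ) g m := by
  intro p hp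
  have hpi : Prime (p : ℤ) := Nat.prime_iff_prime_int.1 hp
  by_cases hpg : p ∣ g
  · refine ⟨0, fun hd => ?_⟩
    have e : ((g : ℤ) * 0 + (a : ℤ)) * ((t : ℤ) - (g * m * 0 + ((m * a : ℕ) : ℤ))) = (a : ℤ) * ((t : ℤ) - m * a) := by
      push_cast
      ring
    rw [e] at hd
    obtain ⟨h1, h2⟩ := ho
    rcases hpi.dvd_or_dvd hd with h3 | h3
    · have h4 : p ∣ a := by exact_mod_cast h3
      have := Nat.dvd_gcd h4 hpg
      rw [Nat.coprime_iff_gcd_eq_one.1 h1] at this
      exact hp.one_lt.ne' (Nat.dvd_one.1 this)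
    · have := Int.dvd_coe_gcd h3 (by exact_mod_cast hpg : (p : ℤ) ∣ (g : ℤ))
      rw [h2] at this
      have h4 : p ∣ 1 := by exact_mod_cast this
      exact hp.one_lt.ne' (Nat.dvd_one.1 h4)
  · obtain ⟨n, hn⟩ := h p hp
    have hcop : IsCoprime (g : ℤ) (p : ℤ) := by
      rw [Nat.isCoprime_iff_coprime]
      exact Nat.coprime_comm.1 ((Nat.Prime.coprime_iff_not_dvd hp).2 hpg)
    obtain ⟨u, v, huv⟩ := hcop
    refine ⟨u * (n - a), fun hd => hn ?_⟩
    have e1 : (g : ℤ) * (u * (n - a)) + (a : ℤ) = n - p * (v * (n - a)) := by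
      have : u * (g : ℤ) = 1 - v * p := by linarith
      calc (g : ℤ) * (u * (n - a)) + (a : ℤ) = (u * g) * (n - a) + a := by ring
        _ = _ := by rw [this]; ring
    have e2 : (t : ℤ) - (g * m * (u * (n - a)) + ((m * a : ℕ) : ℤ)) = (t - m * n) + p * (m * (v * (n - a))) := by
      have : (t : ℤ) - (g * m * (u * (n - a)) + ((m * a : ℕ) : ℤ)) = t - m * ((g : ℤ) * (u * (n - a)) + (a : ℤ)) := by
        push_cast
        ring
      rw [this, e1]
      ring
    rw [e1, e2] at hd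
    rcases hpi.dvd_or_dvd hd with h3 | h3
    · have : (p : ℤ) ∣ n := by
        have h4 := dvd_add h3 (dvd_mul_right (p : ℤ) (v * (n - a)))
        rwa [sub_add_cancel] at h4
      exact this.mul_right _
    · have : (p : ℤ) ∣ t - m * n := by
        have h4 := dvd_sub h3 (dvd_mul_right (p : ℤ) (m * (v * (n - a))))
        rwa [add_sub_cancel_right] at h4
      exact this.mul_left _

theorem tend_big : Tendsto (fun t : ℕ => (t : ℝ) / Real.log t ^ 2) atTop atTop := by
  have h1 : Tendsto (fun x : ℝ => x / Real.log x ^ 2) atTop atTop := by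
    have h2 := (Real.isLittleO_pow_log_id_atTop (n := 2))
    have h3 : Tendsto (fun x : ℝ => Real.log x ^ 2 / x) atTop (𝓝 0) := h2.tendsto_div_nhds_zero
    have h4 : Tendsto (fun x : ℝ => Real.log x ^ 2 / x) atTop (𝓝[>] 0) := by
      rw [tendsto_nhdsWithin_iff]
      refine ⟨h3, ?_⟩
      filter_upwards [eventually_gt_atTop 1] with x hx
      have : 0 < Real.log x := Real.log_pos hx
      have : 0 < x := by linarith
      exact Set.mem_Ioi.2 (by positivity)
    have h5 := h4.inv_tendsto_nhdsGT_zero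
    refine h5.congr fun x => ?_
    simp
  exact h1.comp tendsto_natCast_atTop_atTop

/-- **From the library's theorem to the mean square law, for one number `t`.** -/
theorem det (ε : ℝ) (hε : 0 < ε) (M : ℕ) : ∃ (δ ε₁ : ℝ), 0 < δ ∧ 0 < ε₁ ∧ ε₁ ≤ 1 ∧ ∃ T₀ : ℕ,
    ∀ N : ℕ, (T₀ : ℝ) ≤ Real.log N → ∀ t : ℕ, T₀ ≤ t → ∀ A, 1 ≤ A → Holds ε₁ A 1 M N t →
    ∀ m, 1 ≤ m → m ≤ M → Admissible t m → Law ε δ t m := by
  classical
  obtain ⟨c, hc0, hord⟩ := order_bounds
  obtain ⟨CV, hCV0, hV⟩ := VQ_sum 2 (by norm_num)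
  set K : ℕ := ⌈9 * CV / ε⌉₊ + 1 with hKd
  have hK1 : 1 ≤ K := by omega
  have hK0 : (0 : ℝ) < K := by exact_mod_cast hK1
  have hK : CV / K ≤ ε / 9 := by
    rw [div_le_iff₀ hK0]
    have h1 : 9 * CV / ε ≤ K := by
      rw [hKd]
      push_cast
      linarith [Nat.le_ceil (9 * CV / ε)]
    rw [div_le_iff₀ hε] at h1
    linarith
  set M' : ℝ := M + 1 with hM'
  have hM'0 : 0 < M' := by positivity
  obtain ⟨P₀, x₀, δ₀, hP₀, hx₀, hδ₀, hrel⟩ := EveryNLargeModuli.rel 2 (by norm_num) (ε / 9 * (c / M') ^ 2) (by positivity)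
  set P : ℕ := P₀ * K.factorial with hPd
  have hP : 1 ≤ P := Nat.mul_pos hP₀ (Nat.factorial_pos K)
  have hP0 : (0 : ℝ) < P := by exact_mod_cast hP
  set ε₂ : ℝ := √ε / (3 * P) with hε₂
  have hε₂0 : 0 < ε₂ := by positivity
  set ε₃ : ℝ := min (ε₂ / 8) 1 with hε₃
  have hε₃0 : 0 < ε₃ := lt_min (by positivity) one_pos
  have hε₃1 : ε₃ ≤ 1 := min_le_right _ _
  have hε₃2 : ε₃ ≤ ε₂ / 8 := min_le_left _ _
  obtain ⟨T₁, hT₁⟩ := ratio_log ε₃ hε₃0 (P * M)
  obtain ⟨T₂, hT₂⟩ := eventually_atTop.1 (tend_big.eventually_ge_atTop ((4 * P + 4) / ε₂ * M'))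
  refine ⟨δ₀ * c, ε₃, by positivity, hε₃0, hε₃1, T₁ + T₂ + x₀ + 2 + P * M + P + M, ?_⟩
  intro N hN t ht A hA hH m hm hmM hadm Q hQ hQx
  have hlogN : ((P : ℕ) : ℝ) ≤ Real.log N ∧ ((P * M : ℕ) : ℝ) ≤ Real.log N ∧ 1 ≤ Real.log N := by
    refine ⟨le_trans ?_ hN, le_trans ?_ hN, le_trans ?_ hN⟩
    · exact_mod_cast (by omega : P ≤ T₁ + T₂ + x₀ + 2 + P * M + P + M)
    · exact_mod_cast (by omega : P * M ≤ T₁ + T₂ + x₀ + 2 + P * M + P + M)
    · exact_mod_cast (by omega : 1 ≤ T₁ + T₂ + x₀ + 2 + P * M + P + M)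
  have ht2 : 2 ≤ t := by omega
  have hmt : m ≤ t := by omega
  have hm0 : (0 : ℝ) < m := by exact_mod_cast hm
  have ht0 : (0 : ℝ) < t := by exact_mod_cast (by omega : 0 < t)
  have hNF : NF t m := hadm
  obtain ⟨o1, o2⟩ := hord t m hm ht2 hmt hNF
  have hR0 : 0 < main t m := mainT_pos hm ht2
  have hlt : 0 < Real.log t := Real.log_pos (by exact_mod_cast (by omega : 1 < t))
  rw [← main_eq] at o1 o2
  -- the main term is large
  have hRbig : (4 * P + 4) / ε₂ ≤ main t m := by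
    have h1 := hT₂ t (by omega)
    have h2 : (t : ℝ) / Real.log t ^ 2 / M' ≤ main t m := by
      unfold main
      have e1 := C₂_ge
      have e2 := LP_ge (m * t)
      have e3 : (1 : ℝ) ≤ 2 * C₂ * (∏ p ∈ (m * t).primeFactors.filter (fun p => 2 < p), ((p : ℝ) - 1) / ((p : ℝ) - 2)) := by
        have e4 : (1 : ℝ) ≤ 2 * C₂ := by
          have : C₂ = Pool.Agent.H560R3.GB.C₂ := rfl
          rw [this]
          linarith
        have e5 : (1 : ℝ) ≤ ∏ p ∈ (m * t).primeFactors.filter (fun p => 2 < p), ((p : ℝ) - 1) / ((p : ℝ) - 2) := e2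
        nlinarith
      have e6 : (t : ℝ) / M' ≤ t / m := by
        apply div_le_div_of_nonneg_left ht0.le hm0
        have : (m : ℝ) ≤ M := by exact_mod_cast hmM
        linarith
      calc (t : ℝ) / Real.log t ^ 2 / M' = 1 * (t / M') / Real.log t ^ 2 := by ring
        _ ≤ _ := by
            apply div_le_div_of_nonneg_right _ (by positivity)
            exact mul_le_mul e3 e6 (by positivity) (by linarith)
    refine le_trans ?_ h2
    rw [le_div_iff₀ hM'0]
    exact h1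
  have hRε : 4 * (P : ℝ) + 4 ≤ ε₂ * main t m := by
    rw [div_le_iff₀ hε₂0] at hRbig
    linarith
  -- the expected order
  have hexp : EveryNLargeModuli.expected (pr t m) t = t * VV (omP (pr t m)) t := EveryNLargeModuli.expected_eq _ _
  have hQE : (Q : ℝ) ≤ δ₀ * EveryNLargeModuli.expected (pr t m) t := by
    rw [hexp]
    calc (Q : ℝ) ≤ δ₀ * c * main t m := hQx
      _ = δ₀ * (c * main t m) := by ring
      _ ≤ _ := mul_le_mul_of_nonneg_left o1 hδ₀.le
  have hrel' := hrel 2 (pr t m) (deg_pos hm) (deg_sum hm) (noFix hNF) (solutions t m) (sub_args t m) t (by omega) P hP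
    (Dvd.intro _ rfl) Q hQ hQE
  have hrelT : relT (count t m) P Q = EveryNLargeModuli.relative (solutions t m) t P Q := by
    unfold relT EveryNLargeModuli.relative
    simp only [count_eq hm]
  rw [← hrelT, hexp] at hrel'
  -- the law in the classes to small moduli
  have hfix : ∀ g, 1 ≤ g → g ∣ P → ∀ a, a < g → |count t m g a - main t m * mm (omP (pr t m)) g a| ≤ ε₂ * main t m := by
    intro g hg hgP a ha
    have hgP' : g ≤ P := Nat.le_of_dvd hP hgP
    have hg0 : (0 : ℝ) < g := by exact_mod_cast hg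
    rw [← predicted_eq hg]
    unfold predicted
    by_cases ho : Open t m g a
    · rw [if_pos ho]
      have hcl1 : 1 ≤ classes t m g := by
        unfold classes
        exact (Set.ncard_pos ((Set.finite_Iio g).subset fun b hb => hb.1)).2 ⟨a, ha, ho⟩
      have hcl0 : (0 : ℝ) < classes t m g := by exact_mod_cast hcl1
      have hcl : (1 : ℝ) ≤ classes t m g := by exact_mod_cast hcl1
      have hmP : m * g ≤ t := by
        have : m * g ≤ M * P := Nat.mul_le_mul hmM hgP'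
        have e : M * P = P * M := mul_comm _ _
        omega
      have k1 := count_Q (t := t) hm hg ha
      have hcond : |((m * a : ℕ) : ℝ)| ≤ Real.log N ^ A := by
        rw [abs_of_nonneg (Nat.cast_nonneg _)]
        have h1 : m * a ≤ P * M := by
          have : m * a ≤ M * P := Nat.mul_le_mul hmM (by omega)
          linarith
        calc ((m * a : ℕ) : ℝ) ≤ ((P * M : ℕ) : ℝ) := by exact_mod_cast h1
          _ ≤ Real.log N := hlogN.2.1
          _ ≤ Real.log N ^ A := le_self_pow₀ hlogN.2.2 (by omega)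
      have hcond2 : |((a : ℕ) : ℝ)| ≤ Real.log N ^ A := by
        rw [abs_of_nonneg (Nat.cast_nonneg _)]
        calc ((a : ℕ) : ℝ) ≤ ((P : ℕ) : ℝ) := by exact_mod_cast (by omega : a ≤ P)
          _ ≤ Real.log N := hlogN.1
          _ ≤ Real.log N ^ A := le_self_pow₀ hlogN.2.2 (by omega)
      have k2 := (hH g m (a : ℤ) ((m * a : ℕ) : ℤ) hg (by
        rw [pow_one]
        calc (g : ℝ) ≤ ((P : ℕ) : ℝ) := by exact_mod_cast hgP'
          _ ≤ Real.log N := hlogN.1) hm hmM (by simpa using hcond2) (by simpa using hcond) (adm_of hadm ho)).1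
      obtain ⟨x1, x2⟩ := X_bounds (t := t) hm hg ha hmP
      have k3 := hT₁ t (by omega) (g * m) (SmoothNumbers.X t (m * a : ℕ) g m) (Nat.mul_pos hg hm)
        (Nat.mul_le_mul hgP' hmM) x1 x2
      rw [series_eq] at k2
      obtain ⟨q1, hq1⟩ : ∃ q1, q1 = (SmoothNumbers.Q₁ t a (m * a : ℕ) g m : ℝ) := ⟨_, rfl⟩
      obtain ⟨Xr, hXr⟩ : ∃ Xr, Xr = (SmoothNumbers.X t (m * a : ℕ) g m : ℝ) := ⟨_, rfl⟩
      rw [← hq1] at k1 k2
      rw [← hXr] at k2 k3
      obtain ⟨cl, hcld⟩ : ∃ cl, cl = (classes t m g : ℝ) := ⟨_, rfl⟩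
      rw [← hcld] at k2 hcl hcl0 ⊢
      set Y : ℝ := 2 * C₂ * LP (m * t) / (m * cl) with hY
      have hC₂0 : 0 < C₂ := by
        have : C₂ = Pool.Agent.H560R3.GB.C₂ := rfl
        rw [this]
        linarith [C₂_ge]
      have hLP0 : 0 < LP (m * t) := lt_of_lt_of_le one_pos (LP_ge _)
      have hY0 : 0 < Y := by positivity
      have e1 : Xr / Real.log Xr ^ 2 * (2 * C₂ * LP (m * t) * g / cl) = (Xr * ((g * m : ℕ) : ℝ) / Real.log Xr ^ 2) * Y := by
        rw [hY]
        push_cast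
        field_simp
      have e2 : main t m / cl = (t / Real.log t ^ 2) * Y := by
        rw [hY]
        unfold main LP
        field_simp
      rw [e1] at k2
      rw [e2]
      set a1 : ℝ := Xr * ((g * m : ℕ) : ℝ) / Real.log Xr ^ 2 with ha1
      set a2 : ℝ := (t : ℝ) / Real.log t ^ 2 with ha2
      have ha20 : 0 < a2 := by positivity
      have k4 := abs_le.1 k1
      have k5 := abs_le.1 k2
      have k6 := abs_le.1 k3
      have hb : a2 * Y ≤ main t m := by
        rw [← e2]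
        exact div_le_self hR0.le hcl
      have hb0 : 0 < a2 * Y := by positivity
      have k7 : a1 * Y ≤ a2 * Y + ε₃ * (a2 * Y) := by
        have := mul_le_mul_of_nonneg_right k6.2 hY0.le
        nlinarith
      have k8 : a2 * Y - ε₃ * (a2 * Y) ≤ a1 * Y := by
        have := mul_le_mul_of_nonneg_right k6.1 hY0.le
        nlinarith
      have k9 : a1 * Y ≤ 2 * (a2 * Y) := by nlinarith
      have k10 : ε₃ * (a1 * Y) ≤ ε₃ * (2 * (a2 * Y)) := mul_le_mul_of_nonneg_left k9 hε₃0.le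
      have k11 : ε₃ * (a2 * Y) ≤ ε₂ / 8 * main t m := mul_le_mul hε₃2 hb hb0.le (by positivity)
      rw [abs_le]
      constructor
      · nlinarith
      · nlinarith
    · rw [if_neg ho, sub_zero, abs_of_nonneg (by unfold count; positivity)]
      refine (closed hm hg ho).trans ?_
      have : (g : ℝ) ≤ P := by exact_mod_cast hgP'
      linarith
  have hVV := hV (omP (pr t m)) (adm hm hNF) K P Q hK1 (fun d hd hdK =>
    (Nat.dvd_factorial (by omega) hdK).trans (Dvd.intro_left _ rfl)) hQ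
  have hexpl := explicit (Om := omP (pr t m)) (count t m) (count_mod t m) hP hQ (main t m) (ε₂ * main t m) (CV / K)
    (hVV) hfix
  have hgoal : ∑ q ∈ Ico Q (2 * Q), ∑ a ∈ range q, (count t m q a - predicted t m q a) ^ 2 =
      ∑ q ∈ Ico Q (2 * Q), ∑ a ∈ range q, (count t m q a - main t m * mm (omP (pr t m)) q a) ^ 2 := by
    apply sum_congr rfl
    intro q hq
    rw [mem_Ico] at hq
    apply sum_congr rfl
    intro a _
    rw [predicted_eq (by omega : 1 ≤ q)]
  rw [hgoal]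
  refine hexpl.trans ?_
  have hmM' : (m : ℝ) ≤ M' := by
    have : (m : ℝ) ≤ M := by exact_mod_cast hmM
    linarith
  have hE0 : 0 < (t : ℝ) * VV (omP (pr t m)) t := mul_pos ht0 (VV_pos (adm hm hNF) t)
  have s1 : 3 * relT (count t m) P Q ≤ ε / 3 * main t m ^ 2 := by
    have h1 : c / M' * (t * VV (omP (pr t m)) t) ≤ main t m := by
      rw [div_mul_eq_mul_div, div_le_iff₀ hM'0]
      calc c * (t * VV (omP (pr t m)) t) ≤ m * main t m := o2
        _ ≤ M' * main t m := mul_le_mul_of_nonneg_right hmM' hR0.le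
        _ = _ := mul_comm _ _
    have h2 := pow_le_pow_left₀ (by positivity) h1 2
    calc 3 * relT (count t m) P Q ≤ 3 * (ε / 9 * (c / M') ^ 2 * (t * VV (omP (pr t m)) t) ^ 2) := by linarith
      _ = ε / 3 * (c / M' * (t * VV (omP (pr t m)) t)) ^ 2 := by ring
      _ ≤ _ := mul_le_mul_of_nonneg_left h2 (by positivity)
  have s2 : 3 * ((P : ℝ) ^ 2 * (ε₂ * main t m) ^ 2) = ε / 3 * main t m ^ 2 := by
    rw [hε₂, mul_pow, div_pow, Real.sq_sqrt hε.le]
    field_simp
  have s3 : 3 * (main t m ^ 2 * (CV / K)) ≤ ε / 3 * main t m ^ 2 := by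
    have := mul_le_mul_of_nonneg_left hK (sq_nonneg (main t m))
    nlinarith
  rw [s2]
  linarith

/-- the sizes -/
theorem tend_W (W T : ℕ) : ∃ N₀ : ℕ, ∀ N, N₀ ≤ N → (T : ℝ) ≤ Real.log N ∧ (T : ℝ) ≤ (N : ℝ) / Real.log N ^ W := by
  have h1 : Tendsto (fun x : ℝ => x / Real.log x ^ W) atTop atTop := by
    have h2 := (Real.isLittleO_pow_log_id_atTop (n := W))
    have h3 : Tendsto (fun x : ℝ => Real.log x ^ W / x) atTop (𝓝 0) := h2.tendsto_div_nhds_zero
    have h4 : Tendsto (fun x : ℝ => Real.log x ^ W / x) atTop (𝓝[>] 0) := by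
      rw [tendsto_nhdsWithin_iff]
      refine ⟨h3, ?_⟩
      filter_upwards [eventually_gt_atTop 1] with x hx
      have : 0 < Real.log x := Real.log_pos hx
      have : 0 < x := by linarith
      exact Set.mem_Ioi.2 (by positivity)
    have h5 := h4.inv_tendsto_nhdsGT_zero
    refine h5.congr fun x => ?_
    simp
  have h2 : Tendsto (fun N : ℕ => (N : ℝ) / Real.log N ^ W) atTop atTop := h1.comp tendsto_natCast_atTop_atTop
  have h3 : Tendsto (fun N : ℕ => Real.log (N : ℝ)) atTop atTop := Real.tendsto_log_atTop.comp tendsto_natCast_atTop_atTop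
  obtain ⟨N₀, h⟩ := eventually_atTop.1 ((h3.eventually_ge_atTop (T : ℝ)).and (h2.eventually_ge_atTop (T : ℝ)))
  exact ⟨N₀, h⟩

open Classical in
/-- (1) and (2) -/
theorem thin (ε : ℝ) (hε : 0 < ε) (M : ℕ) : ∃ δ : ℝ, 0 < δ ∧ ∀ (A B W U K : ℕ) (κ : ℤ), κ ≠ 0 →
    ∀ ρ : ℝ, 0 < ρ → ∃ N₀ : ℕ, ∀ N, N₀ ≤ N → ∀ y : ℕ, 1 ≤ y → (y : ℝ) ≤ Real.log N ^ K → ∀ c : ℤ, |c| ≤ B * N →
      (∀ P : Finset ℕ, (∀ p ∈ P, p.Prime ∧ p ≤ y) → (y : ℝ) ^ (1 / 2 + ρ) * Real.log N ≤ P.card →
        (((composedOf P N).filter fun v : ℕ => FailsNear ε δ A B M W N (c + κ * v)).card : ℝ) ≤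
          ((composedOf P N).card : ℝ) / Real.log N ^ U) ∧
      (Real.log N ^ (2 + ρ) ≤ y →
        (((smooth y N).filter fun v : ℕ => FailsNear ε δ A B M W N (c + κ * v)).card : ℝ) ≤
          ((smooth y N).card : ℝ) / Real.log N ^ U) := by
  obtain ⟨δ, ε₁, hδ, hε₁0, hε₁1, T₀, hdet⟩ := det ε hε M
  refine ⟨δ, hδ, fun A B W U K κ hκ ρ hρ => ?_⟩
  obtain ⟨n₁, h1⟩ := tend_W W (T₀ + 1)
  obtain ⟨n₂, h2⟩ := SmoothNumbers.result (A + 1) B 1 M W U K κ hκ ε₁ hε₁0 hε₁1 ρ hρ
  refine ⟨n₁ + n₂, fun N hN y hy hyK c hc => ?_⟩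
  obtain ⟨g1, g2⟩ := h1 N (by omega)
  obtain ⟨k1, k2⟩ := h2 N (by omega) y hy hyK c hc
  push_cast at g1 g2
  have hT0 : (0 : ℝ) ≤ T₀ := Nat.cast_nonneg _
  have hlog1 : 1 ≤ Real.log N := by linarith
  have himp : ∀ v : ℕ, FailsNear ε δ A B M W N (c + κ * v) → ∃ r : ℤ, |(r : ℝ)| ≤ Real.log N ^ (A + 1) ∧
      (N : ℝ) / Real.log N ^ W ≤ ((c + κ * v + r : ℤ) : ℝ) ∧ c + κ * v + r ≤ B * N ∧ ¬ Holds ε₁ (A + 1) 1 M N (c + κ * v + r) := by
    rintro v ⟨t, ht1, ht2, ht3, m, hm, hmM, hadm, hlaw⟩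
    refine ⟨t - (c + κ * v), ?_, ?_, ?_, ?_⟩
    · push_cast
      push_cast at ht1
      exact ht1.trans (pow_le_pow_right₀ hlog1 (by omega))
    · have : c + κ * v + ((t : ℤ) - (c + κ * v)) = t := by ring
      rw [this, Int.cast_natCast]
      exact ht2
    · have : c + κ * v + ((t : ℤ) - (c + κ * v)) = t := by ring
      rw [this]
      exact_mod_cast ht3
    · intro hH
      have : c + κ * v + ((t : ℤ) - (c + κ * v)) = t := by ring
      rw [this] at hH
      apply hlaw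
      refine hdet N (by linarith) t ?_ (A + 1) (by omega) hH m hm hmM hadm
      have : (T₀ : ℝ) ≤ t := by linarith
      exact_mod_cast this
  constructor
  · intro P hP hcard
    refine le_trans ?_ (k1 P hP hcard)
    apply Nat.cast_le.2
    apply card_le_card
    intro v hv
    rw [mem_filter] at hv ⊢
    exact ⟨hv.1, himp v hv.2⟩
  · intro hyl
    refine le_trans ?_ (k2 hyl)
    apply Nat.cast_le.2
    apply card_le_card
    intro v hv
    rw [mem_filter] at hv ⊢
    exact ⟨hv.1, himp v hv.2⟩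

open Classical in
/-- (3) -/
theorem almost_all (ε : ℝ) (M : ℕ) (δ : ℝ)
    (hthin : ∀ (A B W U K : ℕ) (κ : ℤ), κ ≠ 0 →
      ∀ ρ : ℝ, 0 < ρ → ∃ N₀ : ℕ, ∀ N, N₀ ≤ N → ∀ y : ℕ, 1 ≤ y → (y : ℝ) ≤ Real.log N ^ K → ∀ c : ℤ, |c| ≤ B * N →
      (∀ P : Finset ℕ, (∀ p ∈ P, p.Prime ∧ p ≤ y) → (y : ℝ) ^ (1 / 2 + ρ) * Real.log N ≤ P.card →
        (((composedOf P N).filter fun v : ℕ => FailsNear ε δ A B M W N (c + κ * v)).card : ℝ) ≤
          ((composedOf P N).card : ℝ) / Real.log N ^ U) ∧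
      (Real.log N ^ (2 + ρ) ≤ y →
        (((smooth y N).filter fun v : ℕ => FailsNear ε δ A B M W N (c + κ * v)).card : ℝ) ≤
          ((smooth y N).card : ℝ) / Real.log N ^ U)) (U : ℕ) :
    ∃ N₀ : ℕ, ∀ N, N₀ ≤ N →
      (((Icc 1 N).filter fun t : ℕ => ∃ m : ℕ, 1 ≤ m ∧ m ≤ M ∧ Admissible t m ∧ ¬ Law ε δ t m).card : ℝ) ≤
        N / Real.log N ^ U := by
  obtain ⟨n₁, h1⟩ := hthin 0 1 (U + 1) (U + 1) 4 1 one_ne_zero 1 one_pos
  obtain ⟨n₂, h2⟩ := tend_W 0 5
  refine ⟨n₁ + n₂ + 1, fun N hN => ?_⟩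
  obtain ⟨hlog5, _⟩ := h2 N (by omega)
  have hN0 : (0 : ℝ) < N := by exact_mod_cast (by omega : 0 < N)
  have hN1 : (1 : ℝ) ≤ N := by exact_mod_cast (by omega : 1 ≤ N)
  obtain ⟨L, hL⟩ : ∃ L, L = Real.log (N : ℝ) := ⟨_, rfl⟩
  rw [← hL] at hlog5
  push_cast at hlog5
  have hL0 : 0 < L := by linarith
  set y : ℕ := ⌈L ^ 3⌉₊ with hy
  have hy1 : L ^ 3 ≤ y := Nat.le_ceil _
  have hy2 : (y : ℝ) ≤ L ^ 4 := by
    have := (Nat.ceil_lt_add_one (show 0 ≤ L ^ 3 by positivity)).le
    have h3 : 1 ≤ L ^ 3 := one_le_pow₀ (by linarith)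
    have h4 : L ^ 4 = L ^ 3 * L := by ring
    nlinarith
  have hy3 : 1 ≤ y := by
    have : (1 : ℝ) ≤ y := le_trans (one_le_pow₀ (by linarith)) hy1
    exact_mod_cast this
  set S := smooth y N with hS
  have hS1 : 0 < S.card := by
    apply card_pos.2
    refine ⟨1, ?_⟩
    rw [hS]
    unfold smooth
    rw [mem_filter, mem_Icc]
    exact ⟨⟨le_rfl, by omega⟩, by simp⟩
  have hS0 : (0 : ℝ) < S.card := by exact_mod_cast hS1
  have hSle : ∀ v ∈ S, 1 ≤ v ∧ v ≤ N := by
    intro v hv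
    rw [hS] at hv
    unfold smooth at hv
    rw [mem_filter, mem_Icc] at hv
    exact hv.1
  set T : Finset ℕ := (Icc 1 N).filter fun t : ℕ => (N : ℝ) / L ^ (U + 1) ≤ t ∧
    ∃ m : ℕ, 1 ≤ m ∧ m ≤ M ∧ Admissible t m ∧ ¬ Law ε δ t m with hT
  -- double counting
  have hcount : (T.card : ℝ) * S.card ≤ (2 * N + 1) * (S.card / L ^ (U + 1)) := by
    have k1 : T.card * S.card ≤ ∑ c ∈ Icc (-(N : ℤ)) N, (S.filter fun v : ℕ => FailsNear ε δ 0 1 M (U + 1) N (c + 1 * v)).card := by
      rw [← card_product, ← card_sigma]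
      apply card_le_card_of_injOn (fun x : ℕ × ℕ => (⟨(x.1 : ℤ) - x.2, x.2⟩ : Σ _ : ℤ, ℕ))
      · rintro ⟨t, v⟩ hx
        rw [mem_coe, mem_product] at hx
        obtain ⟨hx1, hx2⟩ := hx
        simp only at hx1 hx2
        have hv := hSle v hx2
        rw [hT, mem_filter, mem_Icc] at hx1
        rw [mem_coe, mem_sigma, mem_filter, mem_Icc]
        simp only
        refine ⟨⟨by omega, by omega⟩, hx2, t, ?_, ?_, by linarith [hx1.1.2], hx1.2.2⟩
        · push_cast
          have : (t : ℝ) - ((t : ℝ) - v + 1 * v) = 0 := by ring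
          rw [this]
          simp
        · rw [← hL]
          exact hx1.2.1
      · rintro ⟨t, v⟩ _ ⟨t', v'⟩ _ hxy
        simp only [Sigma.mk.injEq, heq_eq_eq] at hxy
        obtain ⟨h3, h4⟩ := hxy
        subst h4
        have : t = t' := by omega
        rw [this]
    have k2 : (∑ c ∈ Icc (-(N : ℤ)) N, ((S.filter fun v : ℕ => FailsNear ε δ 0 1 M (U + 1) N (c + 1 * v)).card : ℝ)) ≤
        ∑ c ∈ Icc (-(N : ℤ)) N, (S.card : ℝ) / L ^ (U + 1) := by
      apply sum_le_sum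
      intro c hc
      rw [mem_Icc] at hc
      have k3 := (h1 N (by omega) y hy3 (by rw [← hL]; exact hy2) c (by
        rw [Nat.cast_one, one_mul, abs_le]
        exact hc)).2 (by
          rw [← hL]
          have : L ^ ((2 : ℝ) + 1) = L ^ 3 := by
            rw [← Real.rpow_natCast]
            norm_num
          rw [this]
          exact hy1)
      rw [← hL] at k3
      exact k3
    rw [sum_const, Int.card_Icc, nsmul_eq_mul] at k2
    have e : (((N : ℤ) + 1 - -(N : ℤ)).toNat : ℝ) = 2 * N + 1 := by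
      have : ((N : ℤ) + 1 - -(N : ℤ)).toNat = 2 * N + 1 := by omega
      rw [this]
      push_cast
      ring
    rw [e] at k2
    have k4 : ((T.card * S.card : ℕ) : ℝ) ≤ ((∑ c ∈ Icc (-(N : ℤ)) N, (S.filter fun v : ℕ => FailsNear ε δ 0 1 M (U + 1) N (c + 1 * v)).card : ℕ) : ℝ) := by
      exact_mod_cast k1
    push_cast at k4
    exact k4.trans k2
  have hTle : (T.card : ℝ) ≤ 3 * N / L ^ (U + 1) := by
    have h3 : (T.card : ℝ) * S.card ≤ (3 * N / L ^ (U + 1)) * S.card := by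
      refine hcount.trans ?_
      have : (2 * (N : ℝ) + 1) * (S.card / L ^ (U + 1)) = ((2 * N + 1) / L ^ (U + 1)) * S.card := by ring
      rw [this]
      apply mul_le_mul_of_nonneg_right _ hS0.le
      apply div_le_div_of_nonneg_right _ (by positivity)
      linarith
    exact le_of_mul_le_mul_right h3 hS0
  have hsub : ((Icc 1 N).filter fun t : ℕ => ∃ m : ℕ, 1 ≤ m ∧ m ≤ M ∧ Admissible t m ∧ ¬ Law ε δ t m) ⊆
      T ∪ Icc 1 ⌊(N : ℝ) / L ^ (U + 1)⌋₊ := by
    intro t ht
    rw [mem_filter] at ht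
    rw [mem_union, hT, mem_filter]
    by_cases h3 : (N : ℝ) / L ^ (U + 1) ≤ t
    · exact Or.inl ⟨ht.1, h3, ht.2⟩
    · right
      rw [mem_Icc] at ht ⊢
      push Not at h3
      exact ⟨ht.1.1, Nat.le_floor h3.le⟩
  have hcard := (card_le_card hsub).trans (card_union_le _ _)
  rw [Nat.card_Icc, Nat.add_sub_cancel] at hcard
  rw [← hL]
  have h4 : (((Icc 1 N).filter fun t : ℕ => ∃ m : ℕ, 1 ≤ m ∧ m ≤ M ∧ Admissible t m ∧ ¬ Law ε δ t m).card : ℝ) ≤
      T.card + (⌊(N : ℝ) / L ^ (U + 1)⌋₊ : ℝ) := by exact_mod_cast hcard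
  have h5 : (⌊(N : ℝ) / L ^ (U + 1)⌋₊ : ℝ) ≤ N / L ^ (U + 1) := Nat.floor_le (by positivity)
  have h6 : 4 * (N : ℝ) / L ^ (U + 1) ≤ N / L ^ U := by
    rw [pow_succ, div_le_div_iff₀ (by positivity) (by positivity)]
    have : 0 < L ^ U := by positivity
    have h7 : 4 * (N * L ^ U) ≤ L * (N * L ^ U) := mul_le_mul_of_nonneg_right (by linarith) (by positivity)
    nlinarith
  have h7 : 4 * (N : ℝ) / L ^ (U + 1) = 3 * N / L ^ (U + 1) + N / L ^ (U + 1) := by ring
  linarith

end Proofs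

open Classical in
/-- Let `ε > 0` and `M` be given. There is `δ > 0` with the following properties.

(1) Let `A`, `B`, `W`, `U`, `K`, the integer `κ ≠ 0` and `ρ > 0` be fixed, let `N` be large, `1 ≤ y ≤ log ^ K N`, and
let `c` be an arbitrary integer with `|c| ≤ B N`. Let `P` be an arbitrary set of primes which are at most
`y`, with at least `y ^ (1 / 2 + ρ) log N` elements. Then for all the integers `v ≤ N` composed of primes from `P`, up to
a proportion of at most `1 / log ^ U N` of them, the mean square law `Law ε δ t m` holds for ALL `t` with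
`|t - (c + κ v)| ≤ log ^ A N`, `N / log ^ W N ≤ t ≤ B N`, and ALL `m ≤ M` for which `t` is admissible. The same holds for
the `y`-smooth integers `v ≤ N`, if `y ≥ log ^ (2 + ρ) N`.

(2) For all `U` and all large `N`, the law `Law ε δ t m` holds for all `t ≤ N` with at most `N / log ^ U N` exceptions and
ALL `m ≤ M` for which `t` is admissible. -/
theorem result (ε : ℝ) (hε : 0 < ε) (M : ℕ) : ∃ δ : ℝ, 0 < δ ∧
    (∀ (A B W U K : ℕ) (κ : ℤ), κ ≠ 0 → ∀ ρ : ℝ, 0 < ρ →
      ∃ N₀ : ℕ, ∀ N, N₀ ≤ N → ∀ y : ℕ, 1 ≤ y → (y : ℝ) ≤ Real.log N ^ K → ∀ c : ℤ, |c| ≤ B * N →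
      (∀ P : Finset ℕ, (∀ p ∈ P, p.Prime ∧ p ≤ y) → (y : ℝ) ^ (1 / 2 + ρ) * Real.log N ≤ P.card →
        (((composedOf P N).filter fun v : ℕ => FailsNear ε δ A B M W N (c + κ * v)).card : ℝ) ≤
          ((composedOf P N).card : ℝ) / Real.log N ^ U) ∧
      (Real.log N ^ (2 + ρ) ≤ y →
        (((smooth y N).filter fun v : ℕ => FailsNear ε δ A B M W N (c + κ * v)).card : ℝ) ≤
          ((smooth y N).card : ℝ) / Real.log N ^ U)) ∧
    (∀ U : ℕ, ∃ N₀ : ℕ, ∀ N, N₀ ≤ N →
      (((Icc 1 N).filter fun t : ℕ => ∃ m : ℕ, 1 ≤ m ∧ m ≤ M ∧ Admissible t m ∧ ¬ Law ε δ t m).card : ℝ) ≤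
        N / Real.log N ^ U) := by
  obtain ⟨δ, hδ, h⟩ := thin ε hε M
  exact ⟨δ, hδ, h, almost_all ε M δ h⟩

end Pool.Agent.Results.MP_0bf1d2_nt.GoldbachLargeModuli
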