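import Pool.Agent.H86.S6

set_option autoImplicit false

namespace Pool.Agent.Results.MP_0bf1d2_nt.LinearFormsAndPowers

/-- Linnik's approximation to the linear case of Schinzel's Goldbach-type hypothesis, with a small prime.

1. Let `a, a' ≥ 1`, `b ≥ 2` and `c, κ > 0`. There are `η > 0`, `K` and `H₀` such that for all `H ≥ H₀` and ALL `N`: if `P` is
a set of at least `(1 - η) π(H)` primes up to `H`, and `Q` is any set of at least `κ H / log H` integers `q` without prime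
factors below `H ^ c` and with `N - a H ≤ a' q ≤ N`, then `N = a p + a' q + (at most K powers of b)` with `p ∈ P`, `q ∈ Q`.
2. There is `δ > 0` such that for all `a, a' ≥ 1` and `b ≥ 2` there is `K` with: for every large `N` and every
`H ≥ N ^ (1 - δ)`, `N = a p + a' q + (at most K powers of b)` with primes `p`, `q`, `a p ≤ H` and `a' q ≥ N - H`. -/
theorem result :
    (∀ (a a' b : ℕ) (c κ : ℝ), 1 ≤ a → 1 ≤ a' → 2 ≤ b → 0 < c → 0 < κ →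
      ∃ (η : ℝ) (K H₀ : ℕ), 0 < η ∧ ∀ H N : ℕ, H₀ ≤ H → ∀ P Q : Finset ℕ,
      (∀ p ∈ P, p.Prime ∧ p ≤ H) → (1 - η) * (Nat.primeCounting H : ℝ) ≤ P.card →
      (∀ q ∈ Q, N ≤ a' * q + a * H ∧ a' * q ≤ N ∧ ∀ r : ℕ, r.Prime → r ∣ q → (H : ℝ) ^ c ≤ r) →
      κ * H / Real.log H ≤ Q.card →
      ∃ p ∈ P, ∃ q ∈ Q, ∃ k ≤ K, ∃ e : Fin k → ℕ, N = a * p + a' * q + ∑ i, b ^ e i) ∧
    (∃ δ : ℝ, 0 < δ ∧ δ < 1 ∧ ∀ a a' b : ℕ, 1 ≤ a → 1 ≤ a' → 2 ≤ b → ∃ K N₀ : ℕ, ∀ N H : ℕ, N₀ ≤ N →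
      (N : ℝ) ^ (1 - δ) ≤ H →
      ∃ p q : ℕ, p.Prime ∧ q.Prime ∧ a * p ≤ H ∧ N ≤ a' * q + H ∧
        ∃ k ≤ K, ∃ e : Fin k → ℕ, N = a * p + a' * q + ∑ i, b ^ e i) := by
  refine ⟨fun a a' b c κ ha ha' hb hc hκ => ?_, ?_⟩
  · obtain ⟨η, K, H₀, hη, h⟩ := Pool.Agent.H86.DL.local_linnik_forms a a' b ha ha' hb c κ hc hκ
    refine ⟨η, K, H₀, hη, fun H N hH P Q hP hPc hQ hQc => ?_⟩
    obtain ⟨p, hp, q, hq, h1, h2⟩ := h H hH N P Q hP hPc hQ hQc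
    obtain ⟨k, hk, e, he⟩ := Pool.Agent.H86.DL.PS_fin b K _ h2
    exact ⟨p, hp, q, hq, k, hk, e, by omega⟩
  · obtain ⟨δ, hδ0, hδ1, h⟩ := Pool.Agent.H86.DL.small_prime_forms
    refine ⟨δ, hδ0, hδ1, fun a a' b ha ha' hb => ?_⟩
    obtain ⟨K, N₀, h'⟩ := h a a' b ha ha' hb
    refine ⟨K, N₀, fun N H hN hH => ?_⟩
    obtain ⟨p, q, hp, hq, hpH, hqH, h1, h2⟩ := h' N hN H hH
    obtain ⟨k, hk, e, he⟩ := Pool.Agent.H86.DL.PS_fin b K _ h2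
    exact ⟨p, q, hp, hq, hpH, hqH, k, hk, e, by omega⟩

end Pool.Agent.Results.MP_0bf1d2_nt.LinearFormsAndPowers
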